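import Pool.Agent.H459R3.NS.Defs

/-!
The fast fluid near the singular points: definitions.
-/

set_option autoImplicit false

open MeasureTheory Set Metric
open scoped ContDiff

namespace Run7.h219.LPub

open H459R3.NS

/-- The square of the Euclidean length: `|v(x)|²`. -/
noncomputable def nsq (v : V → V) (x : V) : ℝ := ∑ i, v x i ^ 2

/-- The square of the Euclidean length of the gradient: `|∇v(x)|²`. -/
noncomputable def gsq (v : V → V) (x : V) : ℝ := ∑ i, ∑ j, pd j (fun y => v y i) x ^ 2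

/-- `(u, p)` is a smooth solution, of the energy class, of the Navier-Stokes equations with
viscosity `ν` in `(0, T) × Ω`. There is no boundary condition and no condition on `p`. -/
structure ESol (ν T : ℝ) (Ω : Set V) (u : ℝ → V → V) (p : ℝ → V → ℝ) : Prop where
  openO : IsOpen Ω
  smooth_u : ContDiffOn ℝ ∞ (fun z : ℝ × V => u z.1 z.2) (Ioo 0 T ×ˢ Ω)
  smooth_p : ContDiffOn ℝ ∞ (fun z : ℝ × V => p z.1 z.2) (Ioo 0 T ×ˢ Ω)
  divfree : ∀ t ∈ Ioo 0 T, ∀ x ∈ Ω, ∑ i, pd i (fun y => u t y i) x = 0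
  momentum : ∀ t ∈ Ioo 0 T, ∀ x ∈ Ω, ∀ i,
    deriv (fun s => u s x i) t + ∑ j, u t x j * pd j (fun y => u t y i) x
      = ν * ∑ j, pd j (pd j (fun y => u t y i)) x - pd i (p t) x
  energy : ∃ E : ℝ, ∀ t ∈ Ioo 0 T, ∫⁻ x in Ω, ENNReal.ofReal (nsq (u t) x) ≤ ENNReal.ofReal E
  dissipation : ∫⁻ t in Ioo 0 T, ∫⁻ x in Ω, ENNReal.ofReal (gsq (u t) x) ≠ ⊤

/-- The point `x` is singular at the time `T`: `u` is unbounded on `(T - δ, T) × B(x, δ)` for every
`δ > 0`. -/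
def Sing (T : ℝ) (u : ℝ → V → V) (x : V) : Prop :=
  ∀ δ > 0, ∀ B : ℝ, ∃ t ∈ Ioo (T - δ) T, ∃ y ∈ ball x δ, B < ‖u t y‖

/-- The part of `W` where the speed `|v|` is greater than `l`. -/
def fast (l : ℝ) (W : Set V) (v : V → V) : Set V := {x ∈ W | l < √(nsq v x)}

/-- The weak `L^q` norm of `v` on `W` is at most `M`. -/
def Weak (q M : ℝ) (W : Set V) (v : V → V) : Prop :=
  ∀ l : ℝ, 0 < l → volume (fast l W v) ≤ ENNReal.ofReal ((M / l) ^ q)

end Run7.h219.LPub
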