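import Pool.Agent.Run7.h219.LS.Evo5

/-!
The differential inequality for the energy of the difference, and its dissipation.
-/

set_option autoImplicit false
set_option maxHeartbeats 1000000

open MeasureTheory Set Filter Topology
open scoped ContDiff NNReal

namespace Run7.h219.LS

open H459R3.NS Run7.h219.SL

section

variable {s : ℝ} {a : Fin 3 → ℝ → V → ℝ} {Φ : Fin 3 → Fin 3 → ℝ → V → ℝ}
  {γ : Fin 3 → ℝ → V → ℝ} {π δ δ' : ℝ → V → ℝ} {b : Fin 3 → V → ℝ} {H B t₀ : ℝ} {n : ℕ}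

/-- The size of the error. -/
noncomputable def EE (μ B Bp H : ℝ) : ℝ := μ * (1 / 2 + 4 * Bp + (144 * B ^ 2 + 48 * B) * H)

/-- The errors are at most `μ` at the time `t`. -/
structure Sm (μ H : ℝ) (b : Fin 3 → V → ℝ) (n : ℕ) (δ δ' : ℝ → V → ℝ) (t : ℝ) : Prop where
  one : μ ≤ 1
  z : ∀ x, |P H (d0 b) x - er H b n t x| ≤ μ
  z2 : ∀ a c x, |pd a (pd c fun y => P H (d0 b) y - er H b n t y) x| ≤ μ
  r : ∀ x, |P H (dd2 fun i j => FP H b n i j t) x| ≤ μ
  d : ∀ x, |δ t x| ≤ μ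
  d2 : ∀ a c x, |pd a (pd c (δ t)) x| ≤ μ
  ρ : ∀ x, |lap (δ t) x - δ' t x| ≤ μ

/-- The differential inequality. -/
lemma en5_ineq (h : FSol s a Φ γ π δ δ') (hb : ∀ i, SP (b i)) (hB : ∀ i x, |b i x| ≤ B)
    (hH : 1 ≤ H) (hs : 640 * B * √t₀ ≤ 1) (htH : t₀ ≤ H) {t : ℝ} (ht : t ∈ Ioo 0 s) (ht₀ : t ≤ t₀)
    {Bp G₀ F₀ μ : ℝ} (hBp : ∀ x, |π t x| ≤ Bp) (hG : ∑ i, I (fun x => γ i t x ^ 2) ≤ G₀)
    (hF : ∑ i, ∑ j, I (fun x => Φ i j t x ^ 2) ≤ F₀) (hμ : Sm μ H b n δ δ' t) :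
    ∃ e', HasDerivAt (en5 H a b (n + 1)) e' t ∧
      e' + di5 H a b (n + 1) t ≤ (2 * G₀ + 56 * F₀ + 11520 * B ^ 4 / 4 ^ n + EE μ B Bp H)
        + ((1824 * B ^ 2 + 3) + 72 * B * (√t)⁻¹) * en5 H a b (n + 1) t := by
  have hB0 : 0 ≤ B := (abs_nonneg _).trans (hB 0 0)
  have hBp0 : 0 ≤ Bp := (abs_nonneg _).trans (hBp 0)
  have hμ0 : 0 ≤ μ := (abs_nonneg _).trans (hμ.d 0)
  have htI : t ∈ Icc 0 t₀ := ⟨ht.1.le, ht₀⟩
  have hI : t ∈ Icc 0 s := ⟨ht.1.le, ht.2.le⟩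
  have hH0 : 0 ≤ H := by linarith
  refine ⟨_, en5_deriv h hb ht, ?_⟩
  have hd0 := d0_sp hb
  have hFs : ∀ i j, SP (FP H b n i j t) := fun i j => (FP_jj hb n i j).sp t
  have hhs := hh_sp hd0 ht.1 (ht₀.trans htH)
  have hVs : ∀ i, SP (VP H b (n + 1) i t) := fun i => (VP_jj hb (n + 1) i).sp t
  have hws : ∀ i, SP (fun x => a i t x - VP H b (n + 1) i t x) := fun i =>
    sp_sub ((h.ja i).sp t) (hVs i)
  obtain ⟨z, hz⟩ : ∃ z : V → ℝ, z = fun x => P H (d0 b) x - er H b n t x := ⟨_, rfl⟩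
  have hzs : SP z := by rw [hz]; exact sp_sub (P_sp' hd0 H) (er_sp hb n t)
  have hδs : SP (δ t) := h.jδ.sp t
  have hπs : SP (π t) := h.jπ.sp t
  have hqs := hh0_sp (dd2_sp hFs) H
  have hrs := P_sp' (dd2_sp hFs) H
  have key := slice5 (a := fun i => a i t) (Vf := fun i => VP H b (n + 1) i t)
    (F := fun i j => FP H b n i j t) (Φ := fun i j => Φ i j t) (γ := fun i => γ i t) (p := π t)
    (q := hh 0 H (dd2 fun i j => FP H b n i j t)) (h := hh t H (d0 b)) (z := z)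
    (r := P H (dd2 fun i j => FP H b n i j t)) (δ := δ t)
    (w := fun i x => a i t x - VP H b (n + 1) i t x)
    (Λ := 12 * B ^ 2) (M := 12 * B * (√t)⁻¹)
    (fun i => (h.ja i).sp t) hVs hFs (fun i j => (h.jΦ i j).sp t) (fun i => (h.jγ i).sp t) hπs
    hqs hhs hzs hrs hδs (h.dv t hI) (fs_pr h ht hhs)
    (fun x => by
      rw [VP_div hb hH0, lap_hh hd0 ht.1 (ht₀.trans htH), hz]
      ring)
    (fun x => lap_hh0 (dd2_sp hFs) hH0 x)
    (fun x => by
      have : ∀ i, VP H b (n + 1) i t x ^ 2 ≤ (2 * B) ^ 2 := fun i => by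
        rw [← sq_abs]
        exact pow_le_pow_left₀ (abs_nonneg _) (VP_bd hb hB hH0 hs (n + 1) t htI i x) 2
      refine (Finset.sum_le_sum fun i _ => this i).trans (le_of_eq ?_)
      simp
      ring)
    (fun i j x => hess_bd hb hB ht.1 (ht₀.trans htH) i j x) (fun i => rfl)
  have e1 : ∀ i j, (fun x => pd j (fun x => a i t x - VP H b (n + 1) i t x) x ^ 2)
      = fun x => (pd j (a i t) x - pd j (VP H b (n + 1) i t) x) ^ 2 := by
    intro i j
    funext x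
    rw [pd_sub ((h.ja i).sp t) (hVs i)]
  have e2 : ∑ i, ∑ j, I (fun x => pd j (fun x => a i t x - VP H b (n + 1) i t x) x ^ 2)
      = di5 H a b (n + 1) t := by
    unfold di5
    exact Finset.sum_congr rfl fun i _ => Finset.sum_congr rfl fun j _ => by rw [e1]
  rw [e2] at key
  have e3 : I (fun x => ∑ i, ∑ j, (VP H b (n + 1) i t x * VP H b (n + 1) j t x
      - FP H b n i j t x) ^ 2) ≤ 144 * B ^ 4 / 4 ^ n := by
    refine I_le_of_le (SP.sum fun i _ => SP.sum fun j _ =>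
      sp_sq (sp_sub ((hVs i).mul (hVs j)) (hFs i j))) fun x => ?_
    have : ∀ i j, (VP H b (n + 1) i t x * VP H b (n + 1) j t x - FP H b n i j t x) ^ 2
        ≤ (4 * B ^ 2 / 2 ^ n) ^ 2 := fun i j => by
      rw [← sq_abs]
      exact pow_le_pow_left₀ (abs_nonneg _) (FP_err hb hB hH0 hs n htI i j x) 2
    refine (Finset.sum_le_sum fun i _ => Finset.sum_le_sum fun j _ => this i j).trans (le_of_eq ?_)
    simp only [Finset.sum_const, Finset.card_univ, Fintype.card_fin, nsmul_eq_mul]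
    rw [div_pow, ← pow_mul, mul_comm n 2, pow_mul]
    push_cast
    norm_num
    ring
  have e5 : (152 * (12 * B ^ 2) + 6 * (12 * B * (√t)⁻¹) + 2)
      = 1824 * B ^ 2 + 2 + 72 * B * (√t)⁻¹ := by ring
  rw [e5] at key
  have e6 : 80 * (144 * B ^ 4 / 4 ^ n) = 11520 * B ^ 4 / 4 ^ n := by ring
  -- the error terms
  have hsq : √H ≤ H := by
    rw [Real.sqrt_le_left hH0]
    nlinarith
  have hzb : ∀ x, |z x| ≤ μ := fun x => by rw [hz]; exact hμ.z x
  have hhb : ∀ x, |hh t H (d0 b) x| ≤ 6 * B * H := fun x =>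
    (h_bd hb hB ht.1 (ht₀.trans htH) x).trans (mul_le_mul_of_nonneg_left hsq (by linarith))
  have sqb : ∀ {y : ℝ}, |y| ≤ μ → y ^ 2 ≤ μ := fun {y} hy => by
    rw [← sq_abs]
    have := abs_nonneg y
    have := hμ.one
    nlinarith
  have b1 : I (fun x => z x ^ 2) ≤ μ := I_le_of_le (sp_sq hzs) fun x => sqb (hzb x)
  have b2 : I (fun x => δ t x ^ 2) ≤ μ := I_le_of_le (sp_sq hδs) fun x => sqb (hμ.d x)
  have hdz : ∀ x, |δ t x - z x| ≤ 2 * μ := fun x => (abs_sub _ _).trans (by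
    have := hzb x
    have := hμ.d x
    linarith)
  have b3 : |I (fun x => π t x * (δ t x - z x))| ≤ Bp * (2 * μ) := by
    refine I_abs (hπs.mul (sp_sub hδs hzs)) fun x => ?_
    rw [abs_mul]
    exact mul_le_mul (hBp x) (hdz x) (abs_nonneg _) hBp0
  have b4 : |I (fun x => hh 0 H (dd2 fun i j => FP H b n i j t) x * (δ t x - z x))|
      ≤ 72 * B ^ 2 * H * μ := by
    have hsp : ∀ j k, SP (hh 0 H (FP H b n j k t)) := fun j k => hh0_sp (hFs j k) H
    have hdzs : SP (fun x => δ t x - z x) := sp_sub hδs hzs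
    have e1 : (fun x => hh 0 H (dd2 fun i j => FP H b n i j t) x * (δ t x - z x))
        = fun x => ∑ j, ∑ k, pd j (pd k (hh 0 H (FP H b n j k t))) x * (δ t x - z x) := by
      funext x
      rw [hh_dd2 hFs, Finset.sum_mul]
      exact Finset.sum_congr rfl fun j _ => Finset.sum_mul _ _ _
    rw [e1, ← I_sum2 fun j k => (((hsp j k).pd k).pd j).mul hdzs]
    have e3 : ∀ j k, |I (fun x => pd j (pd k (hh 0 H (FP H b n j k t))) x * (δ t x - z x))|
        ≤ 8 * B ^ 2 * H * μ := by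
      intro j k
      rw [Iibp' ((hsp j k).pd k) hdzs j, Iibp' (hsp j k) (hdzs.pd j) k, neg_neg]
      refine I_abs ((hsp j k).mul ((hdzs.pd j).pd k)) fun x => ?_
      rw [abs_mul]
      have h1 := hh0_bd (FP_bd hb hB hH0 hs n t htI j k) hH0 x
      have e7 : pd j (fun x => δ t x - z x) = fun x => pd j (δ t) x - pd j z x :=
        funext fun y => pd_sub hδs hzs j y
      have h2 : |pd k (pd j fun x => δ t x - z x) x| ≤ 2 * μ := by
        rw [e7, pd_sub (hδs.pd j) (hzs.pd j)]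
        refine (abs_sub _ _).trans ?_
        have := hμ.d2 k j x
        have h3 := hμ.z2 k j x
        rw [← hz] at h3
        linarith
      calc |hh 0 H (FP H b n j k t) x| * |pd k (pd j fun x => δ t x - z x) x|
          ≤ (4 * B ^ 2 * H) * (2 * μ) := mul_le_mul h1 h2 (abs_nonneg _) (by positivity)
        _ = 8 * B ^ 2 * H * μ := by ring
    refine (Finset.abs_sum_le_sum_abs _ _).trans ?_
    refine (Finset.sum_le_sum fun j _ => (Finset.abs_sum_le_sum_abs _ _).trans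
      (Finset.sum_le_sum fun k _ => e3 j k)).trans (le_of_eq ?_)
    simp
    ring
  have b5 : |I (fun x => hh t H (d0 b) x * P H (dd2 fun i j => FP H b n i j t) x)|
      ≤ 6 * B * H * μ := by
    refine I_abs (hhs.mul hrs) fun x => ?_
    rw [abs_mul]
    exact mul_le_mul (hhb x) (hμ.r x) (abs_nonneg _) (by positivity)
  have b6 : -I (fun x => δ t x * ∑ i, (a i t x - VP H b (n + 1) i t x) ^ 2)
      ≤ en5 H a b (n + 1) t := by
    have s6 : SP (fun x => ∑ i, (a i t x - VP H b (n + 1) i t x) ^ 2) :=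
      SP.sum fun i _ => sp_sq (hws i)
    have e7 : en5 H a b (n + 1) t = I (fun x => ∑ i, (a i t x - VP H b (n + 1) i t x) ^ 2) := by
      unfold en5
      rw [I_sum fun i _ => sp_sq (hws i)]
    rw [e7, ← I_neg]
    refine I_mono (sp_neg (hδs.mul s6)) s6 fun x => ?_
    have h1 : 0 ≤ ∑ i, (a i t x - VP H b (n + 1) i t x) ^ 2 :=
      Finset.sum_nonneg fun _ _ => sq_nonneg _
    have h2 := hμ.d x
    have h3 := neg_abs_le (δ t x)
    have h4 := hμ.one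
    nlinarith
  have b7 : |I (fun x => (lap (δ t) x - δ' t x) * hh t H (d0 b) x)| ≤ μ * (6 * B * H) := by
    refine I_abs ((sp_sub hδs.lap (h.jδ'.sp t)).mul hhs) fun x => ?_
    rw [abs_mul]
    exact mul_le_mul (hμ.ρ x) (hhb x) (abs_nonneg _) hμ0
  have b8 : |I (fun x => hh t H (d0 b) x * (z x - δ t x))| ≤ 6 * B * H * (2 * μ) := by
    refine I_abs (hhs.mul (sp_sub hzs hδs)) fun x => ?_
    rw [abs_mul, abs_sub_comm]
    exact mul_le_mul (hhb x) (hdz x) (abs_nonneg _) (by positivity)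
  have a3 := le_abs_self (I (fun x => π t x * (δ t x - z x)))
  have a4 := neg_abs_le (I (fun x => hh 0 H (dd2 fun i j => FP H b n i j t) x * (δ t x - z x)))
  have a5 := neg_abs_le (I (fun x => hh t H (d0 b) x * P H (dd2 fun i j => FP H b n i j t) x))
  have a7 := le_abs_self (I (fun x => (lap (δ t) x - δ' t x) * hh t H (d0 b) x))
  have a8 := neg_abs_le (I (fun x => hh t H (d0 b) x * (z x - δ t x)))
  have hEE : EE μ B Bp H = 1 / 4 * μ + 1 / 4 * μ + 2 * (Bp * (2 * μ)) + 2 * (72 * B ^ 2 * H * μ)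
      + 2 * (6 * B * H * μ) + 2 * (μ * (6 * B * H)) + 2 * (6 * B * H * (2 * μ)) := by
    unfold EE
    ring
  refine key.trans ?_
  have he5 : en5 H a b (n + 1) t = ∑ i, I (fun x => (a i t x - VP H b (n + 1) i t x) ^ 2) := rfl
  rw [hEE]
  rw [← he5]
  linarith

/-- The dissipation of the difference. -/
theorem dissip5 (h : FSol s a Φ γ π δ δ') (hb : ∀ i, SP (b i)) (hB : ∀ i x, |b i x| ≤ B)
    (hH : 1 ≤ H) (hs : 640 * B * √t₀ ≤ 1) (htH : t₀ ≤ H) (hs0 : 0 ≤ s) (hst : s ≤ t₀)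
    {Bp G₀ F₀ μ : ℝ} (hBp0 : 0 ≤ Bp) (hG0 : 0 ≤ G₀) (hF0 : 0 ≤ F₀) (hμ0 : 0 ≤ μ)
    (hBp : ∀ t ∈ Icc 0 s, ∀ x, |π t x| ≤ Bp)
    (hG : ∀ t ∈ Icc 0 s, ∑ i, I (fun x => γ i t x ^ 2) ≤ G₀)
    (hF : ∀ t ∈ Icc 0 s, ∑ i, ∑ j, I (fun x => Φ i j t x ^ 2) ≤ F₀)
    (hμ : ∀ t ∈ Icc 0 s, Sm μ H b n δ δ' t) :
    ∫ t in (0 : ℝ)..s, di5 H a b (n + 1) t
      ≤ Real.exp ((1824 * B ^ 2 + 3) * s + 2 * (72 * B) * √s) * (en5 H a b (n + 1) 0
        + s * (2 * G₀ + 56 * F₀ + 11520 * B ^ 4 / 4 ^ n + EE μ B Bp H)) := by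
  have hB0 : 0 ≤ B := (abs_nonneg _).trans (hB 0 0)
  have hH0 : 0 ≤ H := by linarith
  have hE : 0 ≤ EE μ B Bp H := by unfold EE; positivity
  refine gron hs0 (en5_cont h hb).continuousOn (di5_cont h hb).continuousOn
    (fun t _ => en5_nonneg t) (fun t _ => di5_nonneg t) (by positivity) (by positivity)
    (by positivity) fun t ht => ?_
  have hI : t ∈ Icc 0 s := ⟨ht.1.le, ht.2.le⟩
  exact en5_ineq h hb hB hH hs htH ht (ht.2.le.trans hst) (hBp t hI) (hG t hI) (hF t hI) (hμ t hI)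

end

end Run7.h219.LS
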