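import Pool.Agent.Run7.h219.LS.Stm
import Pool.Agent.Run7.h219.LS.Evo6

/-!
The truncated and projected solution.
-/

set_option autoImplicit false
set_option maxHeartbeats 1000000

open MeasureTheory Set Filter Topology
open scoped ContDiff NNReal

namespace Run7.h219.LS

open H459R3.NS Run7.h219.SL

lemma pd_cst (c : ℝ) (j : Fin 3) (x : V) : pd j (fun _ : V => c) x = 0 := by
  unfold pd
  simp

lemma pd_cmul {f : V → ℝ} (hf : SP f) (c : ℝ) (j : Fin 3) (x : V) :
    pd j (fun y => c * f y) x = c * pd j f x := by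
  rw [pd_mul (sp_const c) hf, pd_cst]
  ring

lemma lap_pd {f : V → ℝ} (hf : SP f) (i : Fin 3) (x : V) : lap (pd i f) x = pd i (lap f) x := by
  have e : pd i (lap f) x = ∑ j, pd i (pd j (pd j f)) x := by
    unfold lap
    exact pd_sum (fun j _ => (hf.pd j).pd j) i x
  rw [e]
  unfold lap
  refine Finset.sum_congr rfl fun j _ => ?_
  rw [pd_comm hf j i, pd_comm (hf.pd j) j i]

/-- The equation for the truncated and projected solution. -/
lemma alg_id {φ q p η e : V → ℝ} {u A : Fin 3 → V → ℝ} (hφ : SP φ) (hq : SP q) (hp : SP p)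
    (hη : SP η) (he : SP e) (hu : ∀ i, SP (u i)) (hAs : ∀ i, SP (A i)) {x : V}
    (hdiv : φ x * ∑ j, pd j (u j) x = 0) (i : Fin 3)
    (hA : A i = fun x => φ x * u i x - p x * pd i φ x + pd i η x) :
    φ x * (lap (u i) x - ∑ j, u j x * pd j (u i) x - pd i q x) - q x * pd i φ x + pd i e x
      = lap (A i) x - ∑ j, pd j (fun y => A i y * A j y) x
        + ∑ j, pd j (fun y => A i y * A j y - φ y * (u i y * u j y)
          + pd j (fun y => p y * pd i φ y) y - 2 * (pd j φ y * u i y)) x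
        + (u i x * lap φ x + ∑ j, pd j φ x * (u j x * u i x))
        - pd i (fun y => φ y * q y - e y + lap η y) x := by
  have hpφ : SP (fun y => p y * pd i φ y) := hp.mul (hφ.pd i)
  have hφu : SP (fun y => φ y * u i y) := hφ.mul (hu i)
  have key : ∀ j, pd j (pd j (A i)) x - pd j (fun y => A i y * A j y) x
      + pd j (fun y => A i y * A j y - φ y * (u i y * u j y)
          + pd j (fun y => p y * pd i φ y) y - 2 * (pd j φ y * u i y)) x
      = φ x * pd j (pd j (u i)) x - u i x * pd j (pd j φ) x - pd j φ x * (u j x * u i x)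
        - φ x * (u j x * pd j (u i) x) - u i x * (φ x * pd j (u j) x)
        + pd j (pd j (pd i η)) x := by
    intro j
    have sAA : SP (fun y => A i y * A j y) := (hAs i).mul (hAs j)
    have suu : SP (fun y => u i y * u j y) := (hu i).mul (hu j)
    have sφuu : SP (fun y => φ y * (u i y * u j y)) := hφ.mul suu
    have sc : SP (fun y => pd j φ y * u i y) := (hφ.pd j).mul (hu i)
    have e1 : pd j (A i) = fun y => pd j (fun y => φ y * u i y) y
        - pd j (fun y => p y * pd i φ y) y + pd j (pd i η) y := by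
      rw [hA, pd_add' (sp_sub hφu hpφ) (hη.pd i)]
      funext y
      rw [pd_sub hφu hpφ]
    have e2 : pd j (pd j (A i)) x = pd j (pd j fun y => φ y * u i y) x
        - pd j (pd j fun y => p y * pd i φ y) x + pd j (pd j (pd i η)) x := by
      rw [e1, pd_add' (sp_sub (hφu.pd j) (hpφ.pd j)) ((hη.pd i).pd j)]
      simp only
      rw [pd_sub (hφu.pd j) (hpφ.pd j)]
    have e3 : pd j (fun y => A i y * A j y - φ y * (u i y * u j y)
          + pd j (fun y => p y * pd i φ y) y - 2 * (pd j φ y * u i y)) x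
        = pd j (fun y => A i y * A j y) x - pd j (fun y => φ y * (u i y * u j y)) x
          + pd j (pd j (fun y => p y * pd i φ y)) x - 2 * pd j (fun y => pd j φ y * u i y) x := by
      rw [pd_sub ((sp_sub sAA sφuu).add (hpφ.pd j)) (sp_cmul sc 2), pd_cmul sc,
        pd_add' (sp_sub sAA sφuu) (hpφ.pd j)]
      simp only
      rw [pd_sub sAA sφuu]
    have e4 : pd j (fun y => φ y * u i y) = fun y => φ y * pd j (u i) y + pd j φ y * u i y :=
      funext fun y => pd_mul hφ (hu i) j y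
    have e5 : pd j (pd j fun y => φ y * u i y) x
        = (φ x * pd j (pd j (u i)) x + pd j φ x * pd j (u i) x)
          + pd j (fun y => pd j φ y * u i y) x := by
      rw [e4, pd_add' (hφ.mul ((hu i).pd j)) sc]
      simp only
      rw [pd_mul hφ ((hu i).pd j)]
    rw [e2, e3, e5, pd_mul (hφ.pd j) (hu i), pd_mul hφ suu, pd_mul (hu i) (hu j)]
    ring
  have h1 : lap (A i) x - ∑ j, pd j (fun y => A i y * A j y) x
        + ∑ j, pd j (fun y => A i y * A j y - φ y * (u i y * u j y)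
          + pd j (fun y => p y * pd i φ y) y - 2 * (pd j φ y * u i y)) x
      = φ x * lap (u i) x - u i x * lap φ x - ∑ j, pd j φ x * (u j x * u i x)
        - φ x * ∑ j, u j x * pd j (u i) x - u i x * (φ x * ∑ j, pd j (u j) x) + lap (pd i η) x := by
    unfold lap
    rw [Finset.mul_sum, Finset.mul_sum, Finset.mul_sum, Finset.mul_sum, Finset.mul_sum,
      ← Finset.sum_sub_distrib, ← Finset.sum_add_distrib, ← Finset.sum_sub_distrib,
      ← Finset.sum_sub_distrib, ← Finset.sum_sub_distrib, ← Finset.sum_sub_distrib,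
      ← Finset.sum_add_distrib]
    exact Finset.sum_congr rfl fun j _ => key j
  have h2 : pd i (fun y => φ y * q y - e y + lap η y) x
      = (φ x * pd i q x + pd i φ x * q x) - pd i e x + pd i (lap η) x := by
    rw [pd_add' (sp_sub (hφ.mul hq) he) hη.lap]
    simp only
    rw [pd_sub (hφ.mul hq) he, pd_mul hφ hq]
  rw [h1, h2, hdiv, lap_pd hη]
  ring

/-! ### The fields -/

section

variable (H : ℝ) (φ : V → ℝ) (U : Fin 3 → ℝ → V → ℝ) (q : ℝ → V → ℝ)

/-- The truncated velocity, corrected. -/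
noncomputable def vh (i : Fin 3) (t : ℝ) (x : V) : ℝ := φ x * U i t x - PI q t x * pd i φ x

/-- Its time derivative. -/
noncomputable def vt (i : Fin 3) (t : ℝ) (x : V) : ℝ := φ x * mom U q i t x - q t x * pd i φ x

/-- The divergence. -/
noncomputable def dd (t : ℝ) (x : V) : ℝ := ∑ i, pd i (vh φ U q i t) x

/-- Its time derivative. -/
noncomputable def ddt (t : ℝ) (x : V) : ℝ := ∑ i, pd i (vt φ U q i t) x

/-- The projected velocity. -/
noncomputable def av (i : Fin 3) (t : ℝ) (x : V) : ℝ :=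
  φ x * U i t x - PI q t x * pd i φ x + pd i (hh 0 H (dd φ U q t)) x

/-- The force in divergence form. -/
noncomputable def Φv (i j : Fin 3) (t : ℝ) (x : V) : ℝ :=
  av H φ U q i t x * av H φ U q j t x - φ x * (U i t x * U j t x)
    + pd j (fun y => PI q t y * pd i φ y) x - 2 * (pd j φ x * U i t x)

/-- The other force. -/
noncomputable def γv (i : Fin 3) (t : ℝ) (x : V) : ℝ :=
  U i t x * lap φ x + ∑ j, pd j φ x * (U j t x * U i t x)

/-- The pressure. -/
noncomputable def πv (t : ℝ) (x : V) : ℝ :=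
  φ x * q t x - hh 0 H (ddt φ U q t) x + lap (hh 0 H (dd φ U q t)) x

end

section

variable {H s : ℝ} {φ : V → ℝ} {Z : Set V} {U : Fin 3 → ℝ → V → ℝ} {q : ℝ → V → ℝ}

lemma PI_eq : PI q = JI q 0 := by
  funext t x
  rw [JI_eq]
  rfl

lemma PI_jj (hq : JJ q) : JJ (PI q) := by
  rw [PI_eq]
  exact JI_jj hq 0

lemma PI_td (hq : JJ q) (t : ℝ) (x : V) : HasDerivAt (fun τ => PI q τ x) (q t x) t := by
  rw [PI_eq]
  exact JI_td hq 0 t x

lemma mom_jj (hU : ∀ i, JJ (U i)) (hq : JJ q) (i : Fin 3) : JJ (mom U q i) :=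
  ((hU i).lap.sub (JJ.sum fun j _ => (hU j).mul ((hU i).pd j))).sub (hq.pd i)

lemma vh_jj (hφ : SP φ) (hU : ∀ i, JJ (U i)) (hq : JJ q) (i : Fin 3) : JJ (vh φ U q i) :=
  ((JJ.const hφ).mul (hU i)).sub ((PI_jj hq).mul (JJ.const (hφ.pd i)))

lemma vt_jj (hφ : SP φ) (hU : ∀ i, JJ (U i)) (hq : JJ q) (i : Fin 3) : JJ (vt φ U q i) :=
  ((JJ.const hφ).mul (mom_jj hU hq i)).sub (hq.mul (JJ.const (hφ.pd i)))

lemma dd_jj (hφ : SP φ) (hU : ∀ i, JJ (U i)) (hq : JJ q) : JJ (dd φ U q) :=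
  JJ.sum fun i _ => (vh_jj hφ hU hq i).pd i

lemma ddt_jj (hφ : SP φ) (hU : ∀ i, JJ (U i)) (hq : JJ q) : JJ (ddt φ U q) :=
  JJ.sum fun i _ => (vt_jj hφ hU hq i).pd i

lemma av_jj (hφ : SP φ) (hU : ∀ i, JJ (U i)) (hq : JJ q) (i : Fin 3) : JJ (av H φ U q i) :=
  (vh_jj hφ hU hq i).add (((dd_jj hφ hU hq).hh H).pd i)

lemma Φv_jj (hφ : SP φ) (hU : ∀ i, JJ (U i)) (hq : JJ q) (i j : Fin 3) : JJ (Φv H φ U q i j) :=
  ((((av_jj hφ hU hq i).mul (av_jj hφ hU hq j)).sub ((JJ.const hφ).mul ((hU i).mul (hU j)))).add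
    (((PI_jj hq).mul (JJ.const (hφ.pd i))).pd j)).sub
      ((JJ.const (sp_const 2)).mul ((JJ.const (hφ.pd j)).mul (hU i)))

lemma γv_jj (hφ : SP φ) (hU : ∀ i, JJ (U i)) (i : Fin 3) : JJ (γv φ U i) :=
  ((hU i).mul (JJ.const hφ.lap)).add
    (JJ.sum fun j _ => (JJ.const (hφ.pd j)).mul ((hU j).mul (hU i)))

lemma πv_jj (hφ : SP φ) (hU : ∀ i, JJ (U i)) (hq : JJ q) : JJ (πv H φ U q) :=
  (((JJ.const hφ).mul hq).sub ((ddt_jj hφ hU hq).hh H)).add ((dd_jj hφ hU hq).hh H).lap

/-- Off the set `Z` the derivatives of `φ` vanish. -/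
lemma off_pd (h : Cdat s φ Z U q) {x : V} (hx : x ∉ Z) (i : Fin 3) : φ x = 0 ∧ pd i φ x = 0 := by
  have h1 := h.off x hx
  refine ⟨h1.self_of_nhds, ?_⟩
  unfold pd
  rw [h1.fderiv_eq]
  simp

lemma vh_td (h : Cdat s φ Z U q) (i : Fin 3) : Td 0 s (vh φ U q i) (vt φ U q i) := by
  intro t ht x
  by_cases hx : x ∈ Z
  · exact ((h.evo t ht x hx i).const_mul (φ x)).sub ((PI_td h.jq t x).mul_const _)
  · obtain ⟨h1, h2⟩ := off_pd h hx i
    have e1 : (fun τ => vh φ U q i τ x) = fun _ => 0 := by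
      funext τ
      unfold vh
      rw [h1, h2]
      ring
    have e2 : vt φ U q i t x = 0 := by
      unfold vt
      rw [h1, h2]
      ring
    rw [e1, e2]
    exact hasDerivAt_const t 0

lemma dd_td (h : Cdat s φ Z U q) : Td 0 s (dd φ U q) (ddt φ U q) := by
  intro t ht x
  exact HasDerivAt.fun_sum fun i _ => td_pd (vh_jj h.sp h.jU h.jq i) (vt_jj h.sp h.jU h.jq i)
    (vh_td h i) i t ht x

lemma fsol (h : Cdat s φ Z U q) (hH : 0 ≤ H) : FSol s (av H φ U q) (Φv H φ U q) (γv φ U)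
    (πv H φ U q) (fun t => P H (dd φ U q t)) (fun t => P H (ddt φ U q t)) := by
  have jd := dd_jj h.sp h.jU h.jq
  have jdt := ddt_jj h.sp h.jU h.jq
  refine ⟨av_jj h.sp h.jU h.jq, Φv_jj h.sp h.jU h.jq, γv_jj h.sp h.jU, πv_jj h.sp h.jU h.jq,
    jd.PH H, jdt.PH H, ?_, ?_, td_P jd jdt (dd_td h) H⟩
  · intro t _ x
    have e1 : ∀ i, pd i (av H φ U q i t) x = pd i (vh φ U q i t) x
        + pd i (pd i (hh 0 H (dd φ U q t))) x := by
      intro i
      have e2 : av H φ U q i t = fun x => vh φ U q i t x + pd i (hh 0 H (dd φ U q t)) x := rfl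
      rw [e2, pd_add' ((vh_jj h.sp h.jU h.jq i).sp t) (((jd.hh H).sp t).pd i)]
    simp_rw [e1]
    rw [Finset.sum_add_distrib]
    have e3 : ∑ i, pd i (pd i (hh 0 H (dd φ U q t))) x = P H (dd φ U q t) x - dd φ U q t x :=
      lap_hh0 (jd.sp t) hH x
    have e4 : ∑ i, pd i (vh φ U q i t) x = dd φ U q t x := rfl
    rw [e3, e4]
    ring
  · intro i t ht x
    have h1 := (vh_td h i t ht x).add (td_pd (jd.hh H) (jdt.hh H) (td_hh jd jdt (dd_td h) H) i t ht x)
    have hdiv : φ x * ∑ j, pd j (U j t) x = 0 := by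
      by_cases hx : x ∈ Z
      · rw [h.dvf t ⟨ht.1.le, ht.2.le⟩ x hx, mul_zero]
      · rw [(off_pd h hx 0).1, zero_mul]
    have h2 := alg_id (A := fun i => av H φ U q i t) h.sp (h.jq.sp t) ((PI_jj h.jq).sp t)
      ((jd.hh H).sp t) ((jdt.hh H).sp t) (fun i => (h.jU i).sp t)
      (fun i => (av_jj h.sp h.jU h.jq i).sp t) hdiv i rfl
    have e3 : Rf (av H φ U q) (Φv H φ U q) (γv φ U) (πv H φ U q) i t x
        = vt φ U q i t x + pd i (hh 0 H (ddt φ U q t)) x := h2.symm
    rw [e3]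
    exact h1

end

end Run7.h219.LS
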