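import Pool.Agent.Run7.h219.LS.Avec

/-!
Bounds for the truncated and projected solution.
-/

set_option autoImplicit false
set_option maxHeartbeats 1000000

open MeasureTheory Set Filter Topology
open scoped ContDiff NNReal

namespace Run7.h219.LS

open H459R3.NS Run7.h219.SL

/-- Off the shell the derivatives of the cutoff function vanish. -/
lemma nsh {φ : V → ℝ} {x : V} (hx : x ∉ Sh φ) :
    (∀ i, pd i φ x = 0) ∧ (∀ i j, pd i (pd j φ) x = 0) ∧ (φ x = 0 ∨ φ x = 1) := by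
  have key : ∀ c : ℝ, (φ =ᶠ[𝓝 x] fun _ => c) → (∀ i, pd i φ x = 0) ∧ (∀ i j, pd i (pd j φ) x = 0) := by
    intro c hc
    have h1 : ∀ j, pd j φ =ᶠ[𝓝 x] fun _ => 0 := by
      intro j
      filter_upwards [hc.fderiv (𝕜 := ℝ)] with y hy
      unfold pd
      rw [hy]
      simp
    refine ⟨fun i => (h1 i).self_of_nhds, fun i j => ?_⟩
    unfold pd
    have h2 := (h1 j).fderiv_eq (𝕜 := ℝ)
    unfold pd at h2
    rw [h2]
    simp
  by_cases h0 : φ =ᶠ[𝓝 x] fun _ => 0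
  · exact ⟨(key 0 h0).1, (key 0 h0).2, Or.inl h0.self_of_nhds⟩
  · by_cases h1 : φ =ᶠ[𝓝 x] fun _ => 1
    · exact ⟨(key 1 h1).1, (key 1 h1).2, Or.inr h1.self_of_nhds⟩
    · exact absurd ⟨h0, h1⟩ hx

section

variable {C κ H s B E M : ℝ} {φ : V → ℝ} {Z : Set V} {U : Fin 3 → ℝ → V → ℝ} {q : ℝ → V → ℝ}

/-- Bound of a product of bounded factors. -/
lemma mul_bd {a b c d : ℝ} (ha : |a| ≤ c) (hb : |b| ≤ d) : |a * b| ≤ c * d := by
  rw [abs_mul]
  exact mul_le_mul ha hb (abs_nonneg _) ((abs_nonneg _).trans ha)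

lemma dd_eq (h : Cdat s φ Z U q) {t : ℝ} (ht : t ∈ Icc 0 s) (x : V) :
    dd φ U q t x = ∑ i, (pd i φ x * U i t x - PI q t x * pd i (pd i φ) x
      - pd i (PI q t) x * pd i φ x) := by
  have hdiv : φ x * ∑ j, pd j (U j t) x = 0 := by
    by_cases hx : x ∈ Z
    · rw [h.dvf t ht x hx, mul_zero]
    · rw [(off_pd h hx 0).1, zero_mul]
  have e1 : ∀ i, pd i (vh φ U q i t) x = φ x * pd i (U i t) x
      + (pd i φ x * U i t x - PI q t x * pd i (pd i φ) x - pd i (PI q t) x * pd i φ x) := by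
    intro i
    have e2 : vh φ U q i t = fun x => φ x * U i t x - PI q t x * pd i φ x := rfl
    rw [e2, pd_sub (h.sp.mul ((h.jU i).sp t)) (((PI_jj h.jq).sp t).mul (h.sp.pd i)),
      pd_mul h.sp ((h.jU i).sp t), pd_mul ((PI_jj h.jq).sp t) (h.sp.pd i)]
    ring
  have e3 : dd φ U q t x = ∑ i, pd i (vh φ U q i t) x := rfl
  rw [e3]
  simp_rw [e1]
  rw [Finset.sum_add_distrib, ← Finset.mul_sum, hdiv, zero_add]

lemma dd_bd (h : Cdat s φ Z U q) (hb : Cbd s B E M φ U q) (hB0 : 0 ≤ B) (hM0 : 0 ≤ M) {t : ℝ}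
    (ht : t ∈ Icc 0 s) (x : V) : |dd φ U q t x| ≤ 9 * (B * M) := by
  rw [dd_eq h ht]
  have key : ∀ i, |pd i φ x * U i t x - PI q t x * pd i (pd i φ) x - pd i (PI q t) x * pd i φ x|
      ≤ 3 * (B * M) := by
    intro i
    by_cases hx : x ∈ Sh φ
    · have h1 := mul_bd (hb.dφ i x) (hb.sU t ht x hx i)
      have h2 := mul_bd (hb.sP t ht x hx) (hb.ddφ i i x)
      have h3 := mul_bd (hb.sdP t ht x hx i) (hb.dφ i x)
      have h4 := abs_sub (pd i φ x * U i t x) (PI q t x * pd i (pd i φ) x)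
      have h5 := abs_sub (pd i φ x * U i t x - PI q t x * pd i (pd i φ) x)
        (pd i (PI q t) x * pd i φ x)
      linarith
    · obtain ⟨h1, h2, -⟩ := nsh hx
      rw [h1, h2]
      simp only [zero_mul, mul_zero, sub_zero, abs_zero]
      positivity
  refine (Finset.abs_sum_le_sum_abs _ _).trans ((Finset.sum_le_sum fun i _ => key i).trans
    (le_of_eq ?_))
  simp
  ring

lemma I_dd (hφ : SP φ) (hU : ∀ i, JJ (U i)) (hq : JJ q) (t : ℝ) : I (dd φ U q t) = 0 := by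
  have e : dd φ U q t = fun x => ∑ i, pd i (vh φ U q i t) x := rfl
  rw [e, I_sum fun i _ => ((vh_jj hφ hU hq i).sp t).pd i]
  exact Finset.sum_eq_zero fun i _ => I_pd ((vh_jj hφ hU hq i).sp t) i

lemma I_ddt (hφ : SP φ) (hU : ∀ i, JJ (U i)) (hq : JJ q) (t : ℝ) : I (ddt φ U q t) = 0 := by
  have e : ddt φ U q t = fun x => ∑ i, pd i (vt φ U q i t) x := rfl
  rw [e, I_sum fun i _ => ((vt_jj hφ hU hq i).sp t).pd i]
  exact Finset.sum_eq_zero fun i _ => I_pd ((vt_jj hφ hU hq i).sp t) i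

lemma I_lap {f : V → ℝ} (hf : SP f) : I (lap f) = 0 := by
  have e : lap f = fun x => ∑ i, pd i (pd i f) x := rfl
  rw [e, I_sum fun i _ => (hf.pd i).pd i]
  exact Finset.sum_eq_zero fun i _ => I_pd (hf.pd i) i

/-- The difference between the projected and the truncated solution. -/
noncomputable def zv (H : ℝ) (φ : V → ℝ) (U : Fin 3 → ℝ → V → ℝ) (q : ℝ → V → ℝ) (i : Fin 3)
    (t : ℝ) (x : V) : ℝ := pd i (hh 0 H (dd φ U q t)) x - PI q t x * pd i φ x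

lemma av_zv (i : Fin 3) (t : ℝ) (x : V) : av H φ U q i t x = φ x * U i t x + zv H φ U q i t x := by
  unfold av zv
  ring

/-- Its bound. -/
noncomputable def Zc (C κ B M : ℝ) : ℝ := (2 + C / κ) * (9 * (B * M)) + M * B

lemma Zc_nn (h : Dob C κ) (hB0 : 0 ≤ B) (hM0 : 0 ≤ M) : 0 ≤ Zc C κ B M := by
  have := h.1
  have := h.2.1
  unfold Zc
  positivity

lemma zv_bd (hD : Dob C κ) (h : Cdat s φ Z U q) (hb : Cbd s B E M φ U q) (hB0 : 0 ≤ B)
    (hM0 : 0 ≤ M) (hH : 1 ≤ H) {t : ℝ} (ht : t ∈ Icc 0 s) (i : Fin 3) (x : V) :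
    |zv H φ U q i t x| ≤ Zc C κ B M := by
  have h1 := pd_hh_mz hD ((dd_jj h.sp h.jU h.jq).sp t) (I_dd h.sp h.jU h.jq t)
    (fun x => dd_bd h hb hB0 hM0 ht x) hH i x
  have h2 : |PI q t x * pd i φ x| ≤ M * B := by
    by_cases hx : x ∈ Sh φ
    · exact mul_bd (hb.sP t ht x hx) (hb.dφ i x)
    · rw [(nsh hx).1, mul_zero, abs_zero]
      positivity
  unfold zv Zc
  exact (abs_sub _ _).trans (add_le_add h1 h2)

/-- The bound of the forces. -/
noncomputable def F0 (C κ B E M : ℝ) : ℝ :=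
  27 * (M ^ 2 + Zc C κ B M ^ 2 + 4 * (B * M)) ^ 2 + 18 * Zc C κ B M ^ 2 * E ^ 2

lemma F0_nn : 0 ≤ F0 C κ B E M := by
  unfold F0
  positivity

lemma Φv_pt (hD : Dob C κ) (h : Cdat s φ Z U q) (hb : Cbd s B E M φ U q) (hB0 : 0 ≤ B)
    (hM0 : 0 ≤ M) (hH : 1 ≤ H) {t : ℝ} (ht : t ∈ Icc 0 s) (i j : Fin 3) (x : V) :
    Φv H φ U q i j t x ^ 2 ≤ 3 * (M ^ 2 + Zc C κ B M ^ 2 + 4 * (B * M)) ^ 2
      + (3 * Zc C κ B M ^ 2 * (φ x * U i t x) ^ 2 + 3 * Zc C κ B M ^ 2 * (φ x * U j t x) ^ 2) := by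
  have hZ0 := Zc_nn hD hB0 hM0
  obtain ⟨ζ, hζ⟩ : ∃ ζ, ζ = Zc C κ B M := ⟨_, rfl⟩
  have hz := fun i => zv_bd hD h hb hB0 hM0 hH ht i x
  rw [← hζ] at hz hZ0 ⊢
  have e1 : Φv H φ U q i j t x = ((φ x ^ 2 - φ x) * (U i t x * U j t x)
      + zv H φ U q i t x * zv H φ U q j t x
      + (pd j (PI q t) x * pd i φ x + PI q t x * pd j (pd i φ) x - 2 * (pd j φ x * U i t x)))
      + zv H φ U q j t x * (φ x * U i t x) + zv H φ U q i t x * (φ x * U j t x) := by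
    unfold Φv
    rw [av_zv, av_zv, pd_mul ((PI_jj h.jq).sp t) (h.sp.pd i)]
    ring
  obtain ⟨K, hK⟩ : ∃ K, K = (φ x ^ 2 - φ x) * (U i t x * U j t x)
      + zv H φ U q i t x * zv H φ U q j t x
      + (pd j (PI q t) x * pd i φ x + PI q t x * pd j (pd i φ) x - 2 * (pd j φ x * U i t x)) :=
    ⟨_, rfl⟩
  have hKb : |K| ≤ M ^ 2 + ζ ^ 2 + 4 * (B * M) := by
    have b2 := mul_bd (hz i) (hz j)
    have b13 : |(φ x ^ 2 - φ x) * (U i t x * U j t x)| ≤ M ^ 2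
        ∧ |pd j (PI q t) x * pd i φ x + PI q t x * pd j (pd i φ) x - 2 * (pd j φ x * U i t x)|
          ≤ 4 * (B * M) := by
      by_cases hx : x ∈ Sh φ
      · constructor
        · have h1 : |φ x ^ 2 - φ x| ≤ 1 := by
            obtain ⟨h2, h3⟩ := h.rng x
            rw [abs_le]
            constructor <;> nlinarith
          have h2 := mul_bd h1 (mul_bd (hb.sU t ht x hx i) (hb.sU t ht x hx j))
          linarith
        · have h1 := mul_bd (hb.sdP t ht x hx j) (hb.dφ i x)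
          have h2 := mul_bd (hb.sP t ht x hx) (hb.ddφ j i x)
          have h3 := mul_bd (hb.dφ j x) (hb.sU t ht x hx i)
          have h4 := abs_add_le (pd j (PI q t) x * pd i φ x) (PI q t x * pd j (pd i φ) x)
          have h5 := abs_sub (pd j (PI q t) x * pd i φ x + PI q t x * pd j (pd i φ) x)
            (2 * (pd j φ x * U i t x))
          rw [abs_mul 2, abs_two] at h5
          linarith
      · obtain ⟨h1, h2, h3⟩ := nsh hx
        constructor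
        · have h4 : φ x ^ 2 - φ x = 0 := by
            rcases h3 with h3 | h3 <;> rw [h3] <;> ring
          rw [h4, zero_mul, abs_zero]
          positivity
        · rw [h1, h1, h2]
          simp only [mul_zero, zero_mul, add_zero, sub_zero, abs_zero]
          positivity
    have h4 := abs_add_le ((φ x ^ 2 - φ x) * (U i t x * U j t x))
      (zv H φ U q i t x * zv H φ U q j t x)
    have h5 := abs_add_le ((φ x ^ 2 - φ x) * (U i t x * U j t x)
      + zv H φ U q i t x * zv H φ U q j t x)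
      (pd j (PI q t) x * pd i φ x + PI q t x * pd j (pd i φ) x - 2 * (pd j φ x * U i t x))
    rw [← hK] at h5
    linarith [b13.1, b13.2]
  rw [← hK] at e1
  obtain ⟨w1, hw1⟩ : ∃ w, w = φ x * U i t x := ⟨_, rfl⟩
  obtain ⟨w2, hw2⟩ : ∃ w, w = φ x * U j t x := ⟨_, rfl⟩
  obtain ⟨z1, hz1⟩ : ∃ w, w = zv H φ U q i t x := ⟨_, rfl⟩
  obtain ⟨z2, hz2⟩ : ∃ w, w = zv H φ U q j t x := ⟨_, rfl⟩
  rw [← hw1, ← hw2, ← hz1, ← hz2] at e1
  rw [← hw1, ← hw2, e1]
  have q1 : K ^ 2 ≤ (M ^ 2 + ζ ^ 2 + 4 * (B * M)) ^ 2 := by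
    rw [← sq_abs K]
    exact pow_le_pow_left₀ (abs_nonneg _) hKb 2
  have q2 : z1 ^ 2 ≤ ζ ^ 2 := by
    rw [← sq_abs, hz1]
    exact pow_le_pow_left₀ (abs_nonneg _) (hz i) 2
  have q3 : z2 ^ 2 ≤ ζ ^ 2 := by
    rw [← sq_abs, hz2]
    exact pow_le_pow_left₀ (abs_nonneg _) (hz j) 2
  have q4 : (K + z2 * w1 + z1 * w2) ^ 2 ≤ 3 * K ^ 2 + 3 * (z2 ^ 2 * w1 ^ 2) + 3 * (z1 ^ 2 * w2 ^ 2) := by
    nlinarith [sq_nonneg (K - z2 * w1), sq_nonneg (K - z1 * w2), sq_nonneg (z2 * w1 - z1 * w2)]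
  have q5 : z2 ^ 2 * w1 ^ 2 ≤ ζ ^ 2 * w1 ^ 2 := mul_le_mul_of_nonneg_right q3 (sq_nonneg _)
  have q6 : z1 ^ 2 * w2 ^ 2 ≤ ζ ^ 2 * w2 ^ 2 := mul_le_mul_of_nonneg_right q2 (sq_nonneg _)
  linarith

lemma Φv_bd (hD : Dob C κ) (h : Cdat s φ Z U q) (hb : Cbd s B E M φ U q) (hB0 : 0 ≤ B)
    (hM0 : 0 ≤ M) (hH : 1 ≤ H) {t : ℝ} (ht : t ∈ Icc 0 s) :
    ∑ i, ∑ j, I (fun x => Φv H φ U q i j t x ^ 2) ≤ F0 C κ B E M := by
  have hφU : ∀ i, SP (fun x => (φ x * U i t x) ^ 2) := fun i => sp_sq (h.sp.mul ((h.jU i).sp t))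
  obtain ⟨K, hK⟩ : ∃ K, K = 3 * (M ^ 2 + Zc C κ B M ^ 2 + 4 * (B * M)) ^ 2 := ⟨_, rfl⟩
  obtain ⟨L, hL⟩ : ∃ L, L = 3 * Zc C κ B M ^ 2 := ⟨_, rfl⟩
  have hL0 : 0 ≤ L := by rw [hL]; positivity
  have e0 : ∀ c : ℝ, I (fun _ => c) = c := by
    intro c
    unfold I
    rw [setIntegral_const]
    have : volume.real cube = 1 := by
      rw [measureReal_def, cube, Real.volume_Icc_pi]
      simp
    rw [this, smul_eq_mul, one_mul]
  have key : ∀ i j, I (fun x => Φv H φ U q i j t x ^ 2)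
      ≤ K + (L * I (fun x => (φ x * U i t x) ^ 2) + L * I (fun x => (φ x * U j t x) ^ 2)) := by
    intro i j
    have h1 := I_mono (sp_sq ((Φv_jj (H := H) h.sp h.jU h.jq i j).sp t))
      ((sp_const K).add ((sp_cmul (hφU i) L).add (sp_cmul (hφU j) L))) fun x => by
        have := Φv_pt hD h hb hB0 hM0 hH ht i j x
        rw [← hK, ← hL] at this
        exact this
    rwa [I_add (sp_const K) ((sp_cmul (hφU i) L).add (sp_cmul (hφU j) L)),
      I_add (sp_cmul (hφU i) L) (sp_cmul (hφU j) L), I_cmul, I_cmul, e0] at h1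
  refine (Finset.sum_le_sum fun i _ => Finset.sum_le_sum fun j _ => key i j).trans ?_
  have hE := hb.en t ht
  have e1 : ∑ i, ∑ j, (K + (L * I (fun x => (φ x * U i t x) ^ 2)
      + L * I (fun x => (φ x * U j t x) ^ 2))) = 9 * K
        + 6 * L * ∑ i, I (fun x => (φ x * U i t x) ^ 2) := by
    simp only [Fin.sum_univ_three]
    ring
  rw [e1]
  have h2 : 6 * L * ∑ i, I (fun x => (φ x * U i t x) ^ 2) ≤ 6 * L * E ^ 2 :=
    mul_le_mul_of_nonneg_left hE (by positivity)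
  unfold F0
  rw [hK, hL] at *
  linarith

/-- The bound of the other force. -/
noncomputable def G0 (B M : ℝ) : ℝ := 27 * (B * M + B * M ^ 2) ^ 2

lemma γv_bd (h : Cdat s φ Z U q) (hb : Cbd s B E M φ U q) (hB0 : 0 ≤ B) (hM0 : 0 ≤ M) {t : ℝ}
    (ht : t ∈ Icc 0 s) : ∑ i, I (fun x => γv φ U i t x ^ 2) ≤ G0 B M := by
  have key : ∀ i x, |γv φ U i t x| ≤ 3 * (B * M + B * M ^ 2) := by
    intro i x
    unfold γv
    by_cases hx : x ∈ Sh φ
    · have h1 : |lap φ x| ≤ 3 * B := by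
        unfold lap
        refine (Finset.abs_sum_le_sum_abs _ _).trans ((Finset.sum_le_sum fun j _ =>
          hb.ddφ j j x).trans (le_of_eq ?_))
        simp
      have h2 := mul_bd (hb.sU t ht x hx i) h1
      have h3 : |∑ j, pd j φ x * (U j t x * U i t x)| ≤ 3 * (B * M ^ 2) := by
        refine (Finset.abs_sum_le_sum_abs _ _).trans ((Finset.sum_le_sum fun j _ =>
          mul_bd (hb.dφ j x) (mul_bd (hb.sU t ht x hx j) (hb.sU t ht x hx i))).trans (le_of_eq ?_))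
        simp only [Finset.sum_const, Finset.card_univ, Fintype.card_fin, nsmul_eq_mul]
        push_cast
        ring
      have h4 := abs_add_le (U i t x * lap φ x) (∑ j, pd j φ x * (U j t x * U i t x))
      linarith
    · obtain ⟨h1, h2, -⟩ := nsh hx
      have h3 : lap φ x = 0 := by
        unfold lap
        exact Finset.sum_eq_zero fun j _ => h2 j j
      have h4 : ∑ j, pd j φ x * (U j t x * U i t x) = 0 :=
        Finset.sum_eq_zero fun j _ => by rw [h1, zero_mul]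
      rw [h3, h4, mul_zero, add_zero, abs_zero]
      positivity
  have key2 : ∀ i, I (fun x => γv φ U i t x ^ 2) ≤ (3 * (B * M + B * M ^ 2)) ^ 2 := by
    intro i
    refine I_le_of_le (sp_sq ((γv_jj h.sp h.jU i).sp t)) fun x => ?_
    rw [← sq_abs]
    exact pow_le_pow_left₀ (abs_nonneg _) (key i x) 2
  refine (Finset.sum_le_sum fun i _ => key2 i).trans (le_of_eq ?_)
  unfold G0
  simp
  ring

/-- The bound of the gradient of `zv`. -/
lemma dz_bd (h : Cdat s φ Z U q) (hb : Cbd s B E M φ U q) (hB0 : 0 ≤ B) (hM0 : 0 ≤ M)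
    (hH : 0 ≤ H) {t : ℝ} (ht : t ∈ Icc 0 s) :
    ∑ i, ∑ j, I (fun x => pd j (zv H φ U q i t) x ^ 2) ≤ 720 * (B * M) ^ 2 := by
  have jd := dd_jj h.sp h.jU h.jq
  have sη : SP (hh 0 H (dd φ U q t)) := (jd.hh H).sp t
  have sP : SP (PI q t) := (PI_jj h.jq).sp t
  have key : ∀ i j x, pd j (zv H φ U q i t) x ^ 2 ≤ 2 * pd i (pd j (hh 0 H (dd φ U q t))) x ^ 2
      + 8 * (B * M) ^ 2 := by
    intro i j x
    have e1 : pd j (zv H φ U q i t) x = pd i (pd j (hh 0 H (dd φ U q t))) x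
        - (PI q t x * pd j (pd i φ) x + pd j (PI q t) x * pd i φ x) := by
      have e2 : zv H φ U q i t = fun x => pd i (hh 0 H (dd φ U q t)) x - PI q t x * pd i φ x := rfl
      rw [e2, pd_sub (sη.pd i) (sP.mul (h.sp.pd i)), pd_mul sP (h.sp.pd i), pd_comm sη j i]
    have h1 : |PI q t x * pd j (pd i φ) x + pd j (PI q t) x * pd i φ x| ≤ 2 * (B * M) := by
      by_cases hx : x ∈ Sh φ
      · have h1 := mul_bd (hb.sP t ht x hx) (hb.ddφ j i x)
        have h2 := mul_bd (hb.sdP t ht x hx j) (hb.dφ i x)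
        have h3 := abs_add_le (PI q t x * pd j (pd i φ) x) (pd j (PI q t) x * pd i φ x)
        linarith
      · obtain ⟨h1, h2, -⟩ := nsh hx
        rw [h1, h2, mul_zero, mul_zero, add_zero, abs_zero]
        positivity
    have h2 : (PI q t x * pd j (pd i φ) x + pd j (PI q t) x * pd i φ x) ^ 2 ≤ (2 * (B * M)) ^ 2 := by
      rw [← sq_abs]
      exact pow_le_pow_left₀ (abs_nonneg _) h1 2
    rw [e1]
    nlinarith [sq_nonneg (pd i (pd j (hh 0 H (dd φ U q t))) x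
      + (PI q t x * pd j (pd i φ) x + pd j (PI q t) x * pd i φ x))]
  have e0 : ∀ c : ℝ, I (fun _ => c) = c := by
    intro c
    unfold I
    rw [setIntegral_const]
    have : volume.real cube = 1 := by
      rw [measureReal_def, cube, Real.volume_Icc_pi]
      simp
    rw [this, smul_eq_mul, one_mul]
  have sz : ∀ i, SP (zv H φ U q i t) := fun i => sp_sub (sη.pd i) (sP.mul (h.sp.pd i))
  have key2 : ∀ i j, I (fun x => pd j (zv H φ U q i t) x ^ 2)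
      ≤ 2 * I (fun x => pd i (pd j (hh 0 H (dd φ U q t))) x ^ 2) + 8 * (B * M) ^ 2 := by
    intro i j
    have h1 := I_mono (sp_sq ((sz i).pd j)) ((sp_cmul (sp_sq ((sη.pd j).pd i)) 2).add
      (sp_const (8 * (B * M) ^ 2))) (key i j)
    rwa [I_add (sp_cmul (sp_sq ((sη.pd j).pd i)) 2) (sp_const (8 * (B * M) ^ 2)), I_cmul, e0] at h1
  refine (Finset.sum_le_sum fun i _ => Finset.sum_le_sum fun j _ => key2 i j).trans ?_
  have h3 : I (fun x => lap (hh 0 H (dd φ U q t)) x ^ 2) ≤ (18 * (B * M)) ^ 2 := by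
    refine I_le_of_le (sp_sq sη.lap) fun x => ?_
    rw [← sq_abs, lap_hh0 (jd.sp t) hH]
    refine pow_le_pow_left₀ (abs_nonneg _) ((abs_sub _ _).trans ?_) 2
    have h4 := P_abs H x fun x => dd_bd h hb hB0 hM0 ht x
    have h5 := dd_bd h hb hB0 hM0 ht x
    linarith
  rw [← hess sη] at h3
  have e1 : ∑ i, ∑ j, (2 * I (fun x => pd i (pd j (hh 0 H (dd φ U q t))) x ^ 2) + 8 * (B * M) ^ 2)
      = 2 * (∑ i, ∑ j, I (fun x => pd i (pd j (hh 0 H (dd φ U q t))) x ^ 2)) + 72 * (B * M) ^ 2 := by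
    simp only [Fin.sum_univ_three]
    ring
  rw [e1]
  nlinarith

/-- The pressure is bounded uniformly in `H`. -/
lemma πv_bd (hD : Dob C κ) (h : Cdat s φ Z U q) (hb : Cbd s B E M φ U q) (hB0 : 0 ≤ B)
    (hM0 : 0 ≤ M) : ∃ Bp : ℝ, 0 ≤ Bp ∧ ∀ H : ℝ, 0 ≤ H → ∀ t ∈ Icc 0 s, ∀ x,
      |πv H φ U q t x| ≤ Bp := by
  have jd := dd_jj h.sp h.jU h.jq
  have jdt := ddt_jj h.sp h.jU h.jq
  obtain ⟨B1, hB1, hB1'⟩ := ((JJ.const h.sp).mul h.jq).bdd 0 s
  obtain ⟨B2, hB2, hB2'⟩ := jdt.bdd 0 s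
  have hC := hD.1
  have hκ := hD.2.1
  refine ⟨B1 + C * B2 / κ + 18 * (B * M), by positivity, fun H hH t ht x => ?_⟩
  unfold πv
  have h1 := hB1' t ht x
  have h2 := hh_mz hD (jdt.sp t) (I_ddt h.sp h.jU h.jq t) (hB2' t ht) hH x
  have h3 : |lap (hh 0 H (dd φ U q t)) x| ≤ 18 * (B * M) := by
    rw [lap_hh0 (jd.sp t) hH]
    refine (abs_sub _ _).trans ?_
    have h4 := P_abs H x fun x => dd_bd h hb hB0 hM0 ht x
    have h5 := dd_bd h hb hB0 hM0 ht x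
    linarith
  have h4 := abs_sub (φ x * q t x) (hh 0 H (ddt φ U q t) x)
  have h5 := abs_add_le (φ x * q t x - hh 0 H (ddt φ U q t) x) (lap (hh 0 H (dd φ U q t)) x)
  linarith

/-- The errors are exponentially small. -/
lemma sm_bd (hD : Dob C κ) (h : Cdat s φ Z U q) {Bb t₀ : ℝ} (hst : s ≤ t₀)
    (hs : 640 * Bb * √t₀ ≤ 1) (hBb : 0 ≤ Bb) (ht₀ : 0 ≤ t₀) :
    ∃ K : ℝ, 0 ≤ K ∧ ∀ H : ℝ, 1 ≤ H → K * Real.exp (-(κ * H)) ≤ 1 →
      ∀ (b : Fin 3 → V → ℝ) (n : ℕ), (∀ i, SP (b i)) → (∀ i x, |b i x| ≤ Bb) →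
      ∀ t ∈ Icc 0 s, Sm (K * Real.exp (-(κ * H))) H b n (fun t => P H (dd φ U q t))
        (fun t => P H (ddt φ U q t)) t := by
  have jd := dd_jj h.sp h.jU h.jq
  have jdt := ddt_jj h.sp h.jU h.jq
  have hC := hD.1
  have hκ := hD.2.1
  obtain ⟨D1, hD1, hD1'⟩ := jd.bdd 0 s
  choose D2 hD2 hD2' using fun a c : Fin 3 => ((jd.pd c).pd a).bdd 0 s
  obtain ⟨D3, hD3, hD3'⟩ := (jd.lap.sub jdt).bdd 0 s
  have hKD : 0 ≤ KD C κ Bb t₀ := by
    unfold KD
    have := Real.exp_pos κ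
    positivity
  obtain ⟨S2, hS2⟩ : ∃ S2, S2 = ∑ a, ∑ c, D2 a c := ⟨_, rfl⟩
  have hS20 : 0 ≤ S2 := by
    rw [hS2]
    exact Finset.sum_nonneg fun a _ => Finset.sum_nonneg fun c _ => hD2 a c
  have hS2' : ∀ a c, D2 a c ≤ S2 := by
    intro a c
    rw [hS2]
    refine (Finset.single_le_sum (f := fun c => D2 a c) (fun c _ => hD2 a c)
      (Finset.mem_univ c)).trans ?_
    exact Finset.single_le_sum (f := fun a => ∑ c, D2 a c)
      (fun a _ => Finset.sum_nonneg fun c _ => hD2 a c) (Finset.mem_univ a)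
  refine ⟨KD C κ Bb t₀ + C * D1 + C * S2 + C * D3, by positivity, fun H hH h1 b n hb hB t ht => ?_⟩
  have ht' : t ∈ Icc 0 t₀ := ⟨ht.1, ht.2.trans hst⟩
  obtain ⟨z1, z2, z3⟩ := small_z hD hb hB hH hs n ht'
  have he := Real.exp_pos (-(κ * H))
  have hH0 : 0 ≤ H := by linarith
  have k1 : KD C κ Bb t₀ * Real.exp (-(κ * H))
      ≤ (KD C κ Bb t₀ + C * D1 + C * S2 + C * D3) * Real.exp (-(κ * H)) := by
    refine mul_le_mul_of_nonneg_right ?_ he.le
    have : 0 ≤ C * D1 + C * S2 + C * D3 := by positivity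
    linarith
  have k2 : C * D1 * Real.exp (-(κ * H))
      ≤ (KD C κ Bb t₀ + C * D1 + C * S2 + C * D3) * Real.exp (-(κ * H)) := by
    refine mul_le_mul_of_nonneg_right ?_ he.le
    have : 0 ≤ C * S2 + C * D3 := by positivity
    linarith
  have k3 : C * S2 * Real.exp (-(κ * H))
      ≤ (KD C κ Bb t₀ + C * D1 + C * S2 + C * D3) * Real.exp (-(κ * H)) := by
    refine mul_le_mul_of_nonneg_right ?_ he.le
    have : 0 ≤ C * D1 + C * D3 := by positivity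
    linarith
  have k4 : C * D3 * Real.exp (-(κ * H))
      ≤ (KD C κ Bb t₀ + C * D1 + C * S2 + C * D3) * Real.exp (-(κ * H)) := by
    refine mul_le_mul_of_nonneg_right ?_ he.le
    have : 0 ≤ C * D1 + C * S2 := by positivity
    linarith
  have sd := jd.sp t
  refine ⟨h1, fun x => (z1 x).trans k1, fun a c x => (z2 a c x).trans k1,
    fun x => (z3 x).trans k1, fun x => ?_, fun a c x => ?_, fun x => ?_⟩
  · exact (hD.2.2 _ D1 sd (I_dd h.sp h.jU h.jq t) (hD1' t ht) H hH0 x).trans k2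
  · show |pd a (pd c (P H (dd φ U q t))) x| ≤ _
    rw [pd_P' sd, pd_P' (sd.pd c)]
    refine (hD.2.2 _ S2 ((sd.pd c).pd a) (I_pd (sd.pd c) a)
      (fun x => (hD2' a c t ht x).trans (hS2' a c)) H hH0 x).trans k3
  · show |lap (P H (dd φ U q t)) x - P H (ddt φ U q t) x| ≤ _
    rw [lap_P' sd, ← P_sub sd.lap (jdt.sp t)]
    refine (hD.2.2 _ D3 (sp_sub sd.lap (jdt.sp t)) ?_ (hD3' t ht) H hH0 x).trans k4
    rw [I_sub sd.lap (jdt.sp t), I_lap sd, I_ddt h.sp h.jU h.jq, sub_zero]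

end

end Run7.h219.LS
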