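import Pool.Agent.Run7.h219.LS.Bnd
import Pool.Agent.Run7.h219.SL.Main4

/-!
The comparison of the truncated and projected solution with the Picard flow.
-/

set_option autoImplicit false
set_option maxHeartbeats 1000000

open MeasureTheory Set Filter Topology
open scoped ContDiff NNReal

namespace Run7.h219.LS

open H459R3.NS W221.NS Run7.h219.SL

/-- The fast part changes little under a bounded perturbation. -/
lemma fast_le {c r ζ : ℝ} (hr : 0 < r) (hζ0 : 0 ≤ ζ) (hζ : 4 * ζ * r ≤ c)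
    {A W : Fin 3 → ℝ} (h : ∀ i, |A i - W i| ≤ ζ) (hA : c ^ 2 < r ^ 2 * ∑ i, A i ^ 2) :
    (c / 2) ^ 2 < r ^ 2 * ∑ i, W i ^ 2 ∧ ∑ i, A i ^ 2 ≤ 4 * ∑ i, W i ^ 2 := by
  have h1 : ∑ i, A i ^ 2 ≤ 2 * ∑ i, W i ^ 2 + 6 * ζ ^ 2 := by
    have h2 : ∀ i, A i ^ 2 ≤ 2 * W i ^ 2 + 2 * ζ ^ 2 := by
      intro i
      have h3 : (A i - W i) ^ 2 ≤ ζ ^ 2 := by
        rw [← sq_abs]
        exact pow_le_pow_left₀ (abs_nonneg _) (h i) 2
      nlinarith [sq_nonneg (A i - 2 * W i)]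
    refine (Finset.sum_le_sum fun i _ => h2 i).trans (le_of_eq ?_)
    rw [Finset.sum_add_distrib, ← Finset.mul_sum]
    simp
    ring
  obtain ⟨a, ha⟩ : ∃ a, a = ∑ i, A i ^ 2 := ⟨_, rfl⟩
  obtain ⟨w, hw⟩ : ∃ w, w = ∑ i, W i ^ 2 := ⟨_, rfl⟩
  rw [← ha] at hA h1 ⊢
  rw [← hw] at h1 ⊢
  have hr2 : 0 < r ^ 2 := by positivity
  have h4 : 16 * ζ ^ 2 * r ^ 2 ≤ c ^ 2 := by
    have := pow_le_pow_left₀ (by positivity) hζ 2
    nlinarith
  have h5 : 16 * ζ ^ 2 < a := by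
    have : 16 * ζ ^ 2 * r ^ 2 < a * r ^ 2 := by linarith
    exact lt_of_mul_lt_mul_right this hr2.le
  have h6 : a ≤ 16 / 5 * w := by linarith
  have h7 : 0 ≤ w := by
    have : 0 ≤ ζ ^ 2 := sq_nonneg _
    linarith
  refine ⟨?_, by linarith⟩
  have h8 : r ^ 2 * a ≤ r ^ 2 * (16 / 5 * w) := mul_le_mul_of_nonneg_left h6 hr2.le
  nlinarith [sq_nonneg c]

section

variable {C κ H s B E M : ℝ} {φ : V → ℝ} {Z : Set V} {U : Fin 3 → ℝ → V → ℝ} {q : ℝ → V → ℝ}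

/-- The initial energy. -/
lemma en5_zero (hD : Dob C κ) (h : Cdat s φ Z U q) (hb : Cbd s B E M φ U q) (hB0 : 0 ≤ B)
    (hM0 : 0 ≤ M) (hs0 : 0 ≤ s) (hH : 1 ≤ H) {c r : ℝ} (hc : 0 < c) (hr : 0 < r)
    (hζ : 4 * Zc C κ B M * r ≤ c) (n : ℕ) :
    en5 H (av H φ U q) (bs (r ^ 2 / c ^ 2) fun x i => av H φ U q i 0 x) (n + 1) 0
      ≤ 4 * ∫ x in cube ∩ {x | (c / 2) ^ 2 < r ^ 2 * ∑ i, (φ x * U i 0 x) ^ 2},
        ∑ i, (φ x * U i 0 x) ^ 2 := by
  obtain ⟨v, hv⟩ : ∃ v : V → V, v = fun x i => av H φ U q i 0 x := ⟨_, rfl⟩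
  have hvs : ∀ i, SP (fun y => v y i) := fun i => by
    rw [hv]
    exact (av_jj h.sp h.jU h.jq i).sp 0
  rw [← hv]
  obtain ⟨b, hbdef⟩ : ∃ b, b = bs (r ^ 2 / c ^ 2) v := ⟨_, rfl⟩
  rw [← hbdef]
  have hbs : ∀ i, SP (b i) := fun i => by rw [hbdef]; exact bs_sp hvs _ i
  have e1 : en5 H (av H φ U q) b (n + 1) 0 = I (fun x => ∑ i, (v x i - b i x) ^ 2) := by
    unfold en5
    rw [I_sum fun i _ => sp_sq (sp_sub (hvs i) (hbs i))]
    refine Finset.sum_congr rfl fun i _ => ?_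
    congr 1
    funext x
    rw [VP_zero hbs, hv]
  obtain ⟨w, hw⟩ : ∃ w : V → ℝ, w = fun x => ∑ i, (φ x * U i 0 x) ^ 2 := ⟨_, rfl⟩
  have hws : SP w := by
    rw [hw]
    exact SP.sum fun i _ => sp_sq (h.sp.mul ((h.jU i).sp 0))
  have hO : MeasurableSet {x : V | (c / 2) ^ 2 < r ^ 2 * w x} :=
    (isOpen_lt continuous_const (continuous_const.mul hws.cont)).measurableSet
  have e2 : ∫ x in cube ∩ {x | (c / 2) ^ 2 < r ^ 2 * ∑ i, (φ x * U i 0 x) ^ 2},
      ∑ i, (φ x * U i 0 x) ^ 2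
      = ∫ x in cube, {x | (c / 2) ^ 2 < r ^ 2 * w x}.indicator w x := by
    rw [setIntegral_indicator hO, hw]
  rw [e1, e2, ← integral_const_mul]
  unfold I
  refine integral_mono (SP.sum fun i _ => sp_sq (sp_sub (hvs i) (hbs i))).int ?_ fun x => ?_
  · exact ((integrableOn_cube hws.cont).indicator hO).const_mul 4
  · have h1 := bs_alg hc hr v x
    rw [← hbdef] at h1
    refine h1.trans ?_
    have hwx : w x = ∑ i, (φ x * U i 0 x) ^ 2 := by rw [hw]
    by_cases hx : c ^ 2 < r ^ 2 * nsq v x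
    · have hx' : x ∈ {x | c ^ 2 < r ^ 2 * nsq v x} := hx
      rw [Set.indicator_of_mem hx']
      have hn : nsq v x = ∑ i, v x i ^ 2 := rfl
      rw [hn] at hx ⊢
      have h2 := fast_le (A := fun i => v x i) (W := fun i => φ x * U i 0 x) hr
        (Zc_nn hD hB0 hM0) hζ (fun i => by
          have e3 : v x i - φ x * U i 0 x = zv H φ U q i 0 x := by
            rw [hv]
            simp only
            rw [av_zv]
            ring
          rw [e3]
          exact zv_bd hD h hb hB0 hM0 hH ⟨le_rfl, hs0⟩ i x) hx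
      have hx2 : x ∈ {x | (c / 2) ^ 2 < r ^ 2 * w x} := by
        show (c / 2) ^ 2 < r ^ 2 * w x
        rw [hwx]
        exact h2.1
      rw [Set.indicator_of_mem hx2, hwx]
      exact h2.2
    · have hx' : x ∉ {x | c ^ 2 < r ^ 2 * nsq v x} := hx
      rw [Set.indicator_of_notMem hx']
      refine mul_nonneg (by norm_num) (Set.indicator_nonneg (fun y _ => ?_) x)
      rw [hw]
      exact Finset.sum_nonneg fun i _ => sq_nonneg _

/-- The squared difference of the gradients. -/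
noncomputable def Gv (H : ℝ) (φ : V → ℝ) (U : Fin 3 → ℝ → V → ℝ) (b : Fin 3 → V → ℝ) (n : ℕ)
    (t : ℝ) (x : V) : ℝ :=
  ∑ i, ∑ j, (pd j (fun y => φ y * U i t y) x - pd j (VP H b n i t) x) ^ 2

lemma Gv_jj (hφ : SP φ) (hU : ∀ i, JJ (U i)) {b : Fin 3 → V → ℝ} (hb : ∀ i, SP (b i)) (n : ℕ) :
    JJ (Gv H φ U b n) :=
  JJ.sum fun i _ => JJ.sum fun j _ =>
    jsq ((((JJ.const hφ).mul (hU i)).pd j).sub ((VP_jj hb n i).pd j))

lemma Gv_int (h : Cdat s φ Z U q) (hb : Cbd s B E M φ U q) (hB0 : 0 ≤ B) (hM0 : 0 ≤ M)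
    (hH : 0 ≤ H) {b : Fin 3 → V → ℝ} (hbs : ∀ i, SP (b i)) (n : ℕ) {t : ℝ} (ht : t ∈ Icc 0 s) :
    I (Gv H φ U b n t) ≤ 2 * di5 H (av H φ U q) b n t + 1440 * (B * M) ^ 2 := by
  have sφU : ∀ i, SP (fun y => φ y * U i t y) := fun i => h.sp.mul ((h.jU i).sp t)
  have sV : ∀ i, SP (VP H b n i t) := fun i => (VP_jj hbs n i).sp t
  have jd := dd_jj h.sp h.jU h.jq
  have sz : ∀ i, SP (zv H φ U q i t) := fun i =>
    sp_sub (((jd.hh H).sp t).pd i) (((PI_jj h.jq).sp t).mul (h.sp.pd i))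
  have sa : ∀ i, SP (av H φ U q i t) := fun i => (av_jj h.sp h.jU h.jq i).sp t
  have e1 : I (Gv H φ U b n t) = ∑ i, ∑ j,
      I (fun x => (pd j (fun y => φ y * U i t y) x - pd j (VP H b n i t) x) ^ 2) := by
    rw [I_sum2 fun i j => sp_sq (sp_sub ((sφU i).pd j) ((sV i).pd j))]
    rfl
  have key : ∀ i j, I (fun x => (pd j (fun y => φ y * U i t y) x - pd j (VP H b n i t) x) ^ 2)
      ≤ 2 * I (fun x => (pd j (av H φ U q i t) x - pd j (VP H b n i t) x) ^ 2)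
        + 2 * I (fun x => pd j (zv H φ U q i t) x ^ 2) := by
    intro i j
    rw [← I_cmul, ← I_cmul, ← I_add (sp_cmul (sp_sq (sp_sub ((sa i).pd j) ((sV i).pd j))) 2)
      (sp_cmul (sp_sq ((sz i).pd j)) 2)]
    refine I_mono (sp_sq (sp_sub ((sφU i).pd j) ((sV i).pd j)))
      ((sp_cmul (sp_sq (sp_sub ((sa i).pd j) ((sV i).pd j))) 2).add
        (sp_cmul (sp_sq ((sz i).pd j)) 2)) fun x => ?_
    have e2 : pd j (av H φ U q i t) x = pd j (fun y => φ y * U i t y) x + pd j (zv H φ U q i t) x := by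
      have e3 : av H φ U q i t = fun x => φ x * U i t x + zv H φ U q i t x :=
        funext fun x => av_zv i t x
      rw [e3, pd_add' (sφU i) (sz i)]
    rw [e2]
    nlinarith [sq_nonneg (pd j (fun y => φ y * U i t y) x - pd j (VP H b n i t) x
      + 2 * pd j (zv H φ U q i t) x)]
  rw [e1]
  refine (Finset.sum_le_sum fun i _ => Finset.sum_le_sum fun j _ => key i j).trans ?_
  have h1 := dz_bd h hb hB0 hM0 hH ht
  have e2 : ∑ i, ∑ j, (2 * I (fun x => (pd j (av H φ U q i t) x - pd j (VP H b n i t) x) ^ 2)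
        + 2 * I (fun x => pd j (zv H φ U q i t) x ^ 2))
      = 2 * di5 H (av H φ U q) b n t + 2 * ∑ i, ∑ j, I (fun x => pd j (zv H φ U q i t) x ^ 2) := by
    unfold di5
    simp_rw [Finset.sum_add_distrib, ← Finset.mul_sum]
  rw [e2]
  linarith

end

/-- The limit of the error. -/
lemma EE_lim {κ K Bb Bp σ : ℝ} (hκ : 0 < κ) :
    Tendsto (fun n : ℕ => EE (K * Real.exp (-(κ * (σ + n)))) Bb Bp (σ + n)) atTop (𝓝 0) := by
  have h1 : Tendsto (fun n : ℕ => κ * (σ + n)) atTop atTop :=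
    (tendsto_atTop_add_const_left _ _ tendsto_natCast_atTop_atTop).const_mul_atTop hκ
  have h2 := (Real.tendsto_pow_mul_exp_neg_atTop_nhds_zero 1).comp h1
  have h3 := (Real.tendsto_pow_mul_exp_neg_atTop_nhds_zero 0).comp h1
  have h4 := (h3.const_mul (K * (1 / 2 + 4 * Bp))).add
    (h2.const_mul (K * (144 * Bb ^ 2 + 48 * Bb) / κ))
  rw [mul_zero, mul_zero, add_zero] at h4
  refine h4.congr fun n => ?_
  simp only [Function.comp_apply, pow_zero, one_mul, pow_one]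
  unfold EE
  field_simp

lemma K_lim {κ K σ : ℝ} (hκ : 0 < κ) :
    Tendsto (fun n : ℕ => K * Real.exp (-(κ * (σ + n)))) atTop (𝓝 0) := by
  have h1 : Tendsto (fun n : ℕ => κ * (σ + n)) atTop atTop :=
    (tendsto_atTop_add_const_left _ _ tendsto_natCast_atTop_atTop).const_mul_atTop hκ
  have h3 := (Real.tendsto_pow_mul_exp_neg_atTop_nhds_zero 0).comp h1
  have h4 := h3.const_mul K
  rw [mul_zero] at h4
  refine h4.congr fun n => ?_
  simp only [Function.comp_apply, pow_zero, one_mul]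

theorem t_CORE (hdob : S_DOB) : S_CORE := by
  obtain ⟨CD, κ, hCD, hκ, hdob'⟩ := hdob
  have hD : Dob CD κ := ⟨hCD, hκ, hdob'⟩
  intro ε hε
  obtain ⟨c, hc, hc1, hcε⟩ : ∃ c : ℝ, 0 < c ∧ 1280 * c ≤ 1 ∧ 1320 * c ^ 2 ≤ ε := by
    refine ⟨min (1 / 1280) (ε / 2), lt_min (by norm_num) (by linarith), ?_, ?_⟩
    · have := min_le_left (1 / 1280 : ℝ) (ε / 2)
      linarith
    · have h0 : 0 < min (1 / 1280 : ℝ) (ε / 2) := lt_min (by norm_num) (by linarith)
      have h1 := min_le_left (1 / 1280 : ℝ) (ε / 2)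
      have h2 := min_le_right (1 / 1280 : ℝ) (ε / 2)
      nlinarith
  refine ⟨8 * Real.exp 4, c / 2, by positivity, by positivity, ?_⟩
  intro B E M hB0 hE0 hM0
  have hZ0 := Zc_nn hD hB0 hM0
  have hG0 : 0 ≤ G0 B M := by unfold G0; positivity
  have hF0 : 0 ≤ F0 CD κ B E M := F0_nn
  have he4 := Real.exp_pos 4
  obtain ⟨Cu, hCu⟩ : ∃ Cu, Cu = 1 + 2 * Real.exp 4 * (2 * G0 B M + 56 * F0 CD κ B E M)
      + 1440 * (B * M) ^ 2 + 4 * Zc CD κ B M / c := ⟨_, rfl⟩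
  refine ⟨Cu, by rw [hCu]; positivity, ?_⟩
  intro r s φ Z U q hr hCr hs1 hs2 h hbd η hη
  have hCu1 : 1 ≤ Cu := by
    rw [hCu]
    have : 0 ≤ 2 * Real.exp 4 * (2 * G0 B M + 56 * F0 CD κ B E M)
      + 1440 * (B * M) ^ 2 + 4 * Zc CD κ B M / c := by positivity
    linarith
  have hr1 : r ≤ 1 := by nlinarith
  have hζ : 4 * Zc CD κ B M * r ≤ c := by
    have h1 : 4 * Zc CD κ B M / c ≤ Cu := by
      rw [hCu]
      have : 0 ≤ 1 + 2 * Real.exp 4 * (2 * G0 B M + 56 * F0 CD κ B E M)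
        + 1440 * (B * M) ^ 2 := by positivity
      linarith
    have h2 : 4 * Zc CD κ B M / c * r ≤ 1 := (mul_le_mul_of_nonneg_right h1 hr.le).trans hCr
    have h3 : 4 * Zc CD κ B M * r = c * (4 * Zc CD κ B M / c * r) := by field_simp
    rw [h3]
    nlinarith
  have hr2 : 0 < r ^ 2 := by positivity
  have hs0 : 0 < s := by linarith
  obtain ⟨Bb, hBb⟩ : ∃ Bb, Bb = 2 * c / r := ⟨_, rfl⟩
  have hBb0 : 0 < Bb := by rw [hBb]; positivity
  have hBr : Bb * r = 2 * c := by rw [hBb]; field_simp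
  have hsm : 640 * Bb * √(r ^ 2) ≤ 1 := by
    rw [Real.sqrt_sq hr.le]
    calc 640 * Bb * r = 640 * (Bb * r) := by ring
      _ ≤ 1 := by rw [hBr]; linarith
  obtain ⟨Bp, hBp0, hBp⟩ := πv_bd hD h hbd hB0 hM0
  obtain ⟨K, hK0, hK⟩ := sm_bd hD h hs2.le hsm hBb0.le hr2.le
  -- the choice of the iterate
  have l1 : Tendsto (fun n : ℕ => 11520 * Bb ^ 4 / 4 ^ n) atTop (𝓝 0) := by
    have := (tendsto_pow_atTop_nhds_zero_of_lt_one (r := (1 / 4 : ℝ)) (by norm_num)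
      (by norm_num)).const_mul (11520 * Bb ^ 4)
    rw [mul_zero] at this
    refine this.congr fun n => ?_
    rw [one_div, inv_pow]
    rfl
  have l2 := EE_lim (κ := κ) (K := K) (Bb := Bb) (Bp := Bp) (σ := 1 + r ^ 2) hκ
  have l3 := (l1.add l2).const_mul (2 * Real.exp 4 * s)
  rw [add_zero, mul_zero] at l3
  obtain ⟨n, hn1, hn2⟩ := ((l3.eventually_le_const hη).and
    ((K_lim (κ := κ) (K := K) (σ := 1 + r ^ 2) hκ).eventually_le_const zero_lt_one)).exists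
  obtain ⟨H, hH⟩ : ∃ H : ℝ, H = 1 + r ^ 2 + n := ⟨_, rfl⟩
  rw [← hH] at hn1 hn2
  have hnn : (0 : ℝ) ≤ n := Nat.cast_nonneg n
  have hH1 : 1 ≤ H := by rw [hH]; linarith
  have hH0 : 0 ≤ H := by linarith
  have hHr : r ^ 2 ≤ H := by rw [hH]; linarith
  obtain ⟨v, hv⟩ : ∃ v : V → V, v = fun x i => av H φ U q i 0 x := ⟨_, rfl⟩
  have hvs : ∀ i, SP (fun y => v y i) := fun i => by
    rw [hv]
    exact (av_jj h.sp h.jU h.jq i).sp 0
  obtain ⟨b, hbdef⟩ : ∃ b, b = bs (r ^ 2 / c ^ 2) v := ⟨_, rfl⟩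
  have hbs : ∀ i, SP (b i) := fun i => by rw [hbdef]; exact bs_sp hvs _ i
  have hbB : ∀ i x, |b i x| ≤ Bb := fun i x => by rw [hbdef, hBb]; exact bs_bd hc hr v i x
  have hGj := Gv_jj (H := H) h.sp h.jU hbs (n + 1)
  refine ⟨Gv H φ U b (n + 1), hGj.c, fun t => (hGj.sp t).per, fun t x =>
    Finset.sum_nonneg fun i _ => Finset.sum_nonneg fun j _ => sq_nonneg _, ?_, ?_⟩
  · -- the gradient
    intro t ht x hx
    have ht0 : 0 < t := by linarith [ht.1]
    have hP : ∀ i j, pd j (VP H b (n + 1) i t) x ^ 2 ≤ 512 * c ^ 2 / (7 * r ^ 4) := by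
      intro i j
      have h1 := VP_grad hbs hbB hH0 hsm (n + 1) t ⟨ht0, ht.2.le.trans hs2.le⟩ i j x
      have h2 : pd j (VP H b (n + 1) i t) x ^ 2 ≤ (4 * Bb * (√t)⁻¹) ^ 2 := by
        rw [← sq_abs]
        exact pow_le_pow_left₀ (abs_nonneg _) h1 2
      refine h2.trans ?_
      rw [mul_pow, inv_pow, Real.sq_sqrt ht0.le, mul_pow, hBb, div_pow]
      have h3 : t⁻¹ ≤ 8 / (7 * r ^ 2) := by
        rw [inv_le_comm₀ (by positivity) (by positivity), inv_div]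
        linarith [ht.1]
      calc 4 ^ 2 * ((2 * c) ^ 2 / r ^ 2) * t⁻¹ ≤ 4 ^ 2 * ((2 * c) ^ 2 / r ^ 2) * (8 / (7 * r ^ 2)) := by
            gcongr
        _ = _ := by field_simp; norm_num
    have hloc : ∀ i j, pd j (U i t) x = pd j (fun y => φ y * U i t y) x := by
      intro i j
      have h1 : (fun y => φ y * U i t y) =ᶠ[𝓝 x] U i t := by
        filter_upwards [hx] with y hy
        rw [hy, one_mul]
      unfold pd
      rw [h1.fderiv_eq]
    have h4 : ∑ i, ∑ j, pd j (U i t) x ^ 2 ≤ 2 * Gv H φ U b (n + 1) t x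
        + 2 * ∑ i : Fin 3, ∑ j : Fin 3, pd j (VP H b (n + 1) i t) x ^ 2 := by
      unfold Gv
      rw [Finset.mul_sum, Finset.mul_sum, ← Finset.sum_add_distrib]
      refine Finset.sum_le_sum fun i _ => ?_
      rw [Finset.mul_sum, Finset.mul_sum, ← Finset.sum_add_distrib]
      refine Finset.sum_le_sum fun j _ => ?_
      rw [hloc i j]
      nlinarith [sq_nonneg (pd j (fun y => φ y * U i t y) x - 2 * pd j (VP H b (n + 1) i t) x)]
    have h5 : ∑ i : Fin 3, ∑ j : Fin 3, pd j (VP H b (n + 1) i t) x ^ 2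
        ≤ 9 * (512 * c ^ 2 / (7 * r ^ 4)) := by
      refine (Finset.sum_le_sum fun i _ => Finset.sum_le_sum fun j _ => hP i j).trans (le_of_eq ?_)
      simp
      ring
    have h6 : 2 * (9 * (512 * c ^ 2 / (7 * r ^ 4))) ≤ ε / r ^ 4 := by
      have e2 : 2 * (9 * (512 * c ^ 2 / (7 * r ^ 4))) = 9216 / 7 * c ^ 2 / r ^ 4 := by
        field_simp
        norm_num
      rw [e2]
      have h7 : 9216 / 7 * c ^ 2 ≤ ε := by nlinarith [sq_nonneg c]
      exact div_le_div_of_nonneg_right h7 (by positivity)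
    linarith
  · -- the integral
    have hfs := fsol h hH0
    have h1 := dissip5 (n := n) hfs hbs hbB hH1 hsm hHr hs0.le hs2.le hBp0 hG0 hF0
      (mul_nonneg hK0 (Real.exp_pos _).le) (hBp H hH0)
      (fun t ht => γv_bd h hbd hB0 hM0 ht) (fun t ht => Φv_bd hD h hbd hB0 hM0 hH1 ht)
      (hK H hH1 hn2 b n hbs hbB)
    have h2 := en5_zero hD h hbd hB0 hM0 hs0.le hH1 hc hr hζ n
    rw [← hv, ← hbdef] at h2
    obtain ⟨J, hJ⟩ : ∃ J, J = ∫ x in cube ∩ {x | (c / 2) ^ 2 < r ^ 2 * ∑ i, (φ x * U i 0 x) ^ 2},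
        ∑ i, (φ x * U i 0 x) ^ 2 := ⟨_, rfl⟩
    rw [← hJ] at h2 ⊢
    have hex : Real.exp ((1824 * Bb ^ 2 + 3) * s + 2 * (72 * Bb) * √s) ≤ Real.exp 4 := by
      apply Real.exp_le_exp.2
      have h3 := expo hBb0 hr hBr hc hc1 hs2
      have h4 : s ≤ 1 := by nlinarith
      linarith
    have hen0 := en5_nonneg (H := H) (a := av H φ U q) (b := b) (n := n + 1) 0
    have hEE : 0 ≤ EE (K * Real.exp (-(κ * H))) Bb Bp H := by
      unfold EE
      have := Real.exp_pos (-(κ * H))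
      positivity
    have h3 : ∫ t in (0 : ℝ)..s, di5 H (av H φ U q) b (n + 1) t
        ≤ Real.exp 4 * (4 * J + s * (2 * G0 B M + 56 * F0 CD κ B E M + 11520 * Bb ^ 4 / 4 ^ n
          + EE (K * Real.exp (-(κ * H))) Bb Bp H)) := by
      refine h1.trans (mul_le_mul hex (add_le_add h2 le_rfl) ?_ he4.le)
      have : 0 ≤ s * (2 * G0 B M + 56 * F0 CD κ B E M + 11520 * Bb ^ 4 / 4 ^ n
          + EE (K * Real.exp (-(κ * H))) Bb Bp H) := by positivity
      linarith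
    have hdc : Continuous (fun t => 2 * di5 H (av H φ U q) b (n + 1) t) :=
      continuous_const.mul (di5_cont hfs hbs)
    have h4 : ∫ t in (0 : ℝ)..s, I (Gv H φ U b (n + 1) t)
        ≤ ∫ t in (0 : ℝ)..s, (2 * di5 H (av H φ U q) b (n + 1) t + 1440 * (B * M) ^ 2) := by
      refine intervalIntegral.integral_mono_on hs0.le ((jcI hGj).intervalIntegrable _ _)
        ((hdc.add continuous_const).intervalIntegrable _ _)
        fun t ht => ?_
      exact Gv_int h hbd hB0 hM0 hH0 hbs (n + 1) ht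
    rw [intervalIntegral.integral_add (hdc.intervalIntegrable
      _ _) intervalIntegrable_const, intervalIntegral.integral_const_mul,
      intervalIntegral.integral_const, smul_eq_mul, sub_zero] at h4
    have h5 : s * (2 * Real.exp 4 * (2 * G0 B M + 56 * F0 CD κ B E M) + 1440 * (B * M) ^ 2)
        ≤ Cu * r ^ 2 := by
      have h6 : 2 * Real.exp 4 * (2 * G0 B M + 56 * F0 CD κ B E M) + 1440 * (B * M) ^ 2 ≤ Cu := by
        rw [hCu]
        have : 0 ≤ 4 * Zc CD κ B M / c := by positivity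
        linarith
      have h7 : 0 ≤ 2 * Real.exp 4 * (2 * G0 B M + 56 * F0 CD κ B E M) + 1440 * (B * M) ^ 2 := by
        positivity
      nlinarith
    nlinarith

end Run7.h219.LS
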