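import Pool.Agent.Run7.h219.SL.Pic

/-!
Time derivatives of families of smooth periodic functions.
-/

set_option autoImplicit false

open MeasureTheory Set Filter Topology ProbabilityTheory
open scoped ContDiff NNReal

namespace Run7.h219.LS

open H459R3.NS Run7.h219.SL

section

variable {g g' : ℝ → V → ℝ} {a b : ℝ}

/-- `g'` is the time derivative of `g` in `(a, b)`. -/
def Td (a b : ℝ) (g g' : ℝ → V → ℝ) : Prop :=
  ∀ t ∈ Ioo a b, ∀ x, HasDerivAt (fun τ => g τ x) (g' t x) t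

/-- The integral in time. -/
noncomputable def JI (g : ℝ → V → ℝ) (t₀ : ℝ) : ℝ → V → ℝ :=
  LL (fun _ _ => 0) (fun _ s => t₀ + s) (fun t => t - t₀) g

lemma cα0 : Continuous (fun z : ℝ × ℝ => (fun _ _ : ℝ => (0 : ℝ)) z.1 z.2) := continuous_const
lemma cβ0 (t₀ : ℝ) : Continuous (fun z : ℝ × ℝ => (fun _ s : ℝ => t₀ + s) z.1 z.2) := by fun_prop
lemma ca0 (t₀ : ℝ) : Continuous (fun t : ℝ => t - t₀) := by fun_prop

lemma JI_jj (hg : JJ g) (t₀ : ℝ) : JJ (JI g t₀) := hg.LL cα0 (cβ0 t₀) (ca0 t₀)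

lemma JI_eq (t₀ t : ℝ) (x : V) : JI g t₀ t x = ∫ s in t₀..t, g s x := by
  unfold JI LL
  simp_rw [P_zero]
  rw [intervalIntegral.integral_comp_add_left (fun s => g s x) t₀, add_zero,
    add_sub_cancel]

lemma pd_JI (hg : JJ g) (t₀ t : ℝ) (j : Fin 3) :
    pd j (JI g t₀ t) = JI (fun s => pd j (g s)) t₀ t := pd_LL cα0 (cβ0 t₀) hg t j

lemma JJ.ct' (hg : JJ g) (x : V) : Continuous fun s => g s x :=
  hg.c.comp (by fun_prop : Continuous fun s : ℝ => ((s, x) : ℝ × V))

lemma JI_td (hg : JJ g) (t₀ t : ℝ) (x : V) : HasDerivAt (fun τ => JI g t₀ τ x) (g t x) t := by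
  have e : (fun τ => JI g t₀ τ x) = fun τ => ∫ s in t₀..τ, g s x := funext fun τ => JI_eq t₀ τ x
  rw [e]
  exact intervalIntegral.integral_hasDerivAt_right ((JJ.ct' hg x).intervalIntegrable _ _)
    ((JJ.ct' hg x).stronglyMeasurableAtFilter _ _) (JJ.ct' hg x).continuousAt

/-- The fundamental theorem of calculus. -/
lemma td_ftc (hg' : JJ g') (h : Td a b g g') {t₀ t : ℝ} (ht₀ : t₀ ∈ Ioo a b) (ht : t ∈ Ioo a b)
    (x : V) : g t x = g t₀ x + JI g' t₀ t x := by
  rw [JI_eq, intervalIntegral.integral_eq_sub_of_hasDerivAt (f := fun τ => g τ x)]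
  · ring
  · intro s hs
    refine h s ?_ x
    have := (convex_Ioo a b).ordConnected.uIcc_subset ht₀ ht
    exact this hs
  · exact (JJ.ct' hg' x).intervalIntegrable _ _

/-- The derivative of `pd i g`. -/
lemma td_pd (hg : JJ g) (hg' : JJ g') (h : Td a b g g') (i : Fin 3) :
    Td a b (fun t => pd i (g t)) (fun t => pd i (g' t)) := by
  intro t ht x
  have h1 : ∀ τ ∈ Ioo a b, pd i (g τ) x = pd i (g t) x + JI (fun s => pd i (g' s)) t τ x := by
    intro τ hτ
    have e1 : g τ = fun x => g t x + JI g' t τ x := funext fun x => td_ftc hg' h ht hτ x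
    rw [e1, pd_add' (hg.sp t) ((JI_jj hg' t).sp τ), pd_JI hg']
  have h2 := (JI_td (hg'.pd i) t t x).const_add (pd i (g t) x)
  refine h2.congr_of_eventuallyEq ?_
  filter_upwards [Ioo_mem_nhds ht.1 ht.2] with τ hτ
  exact h1 τ hτ

lemma td_lap (hg : JJ g) (hg' : JJ g') (h : Td a b g g') :
    Td a b (fun t => lap (g t)) (fun t => lap (g' t)) := by
  intro t ht x
  unfold lap
  exact HasDerivAt.fun_sum fun j _ => td_pd (hg.pd j) (hg'.pd j) (td_pd hg hg' h j) j t ht x

/-- The derivative of the heat flow. -/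
lemma td_P (hg : JJ g) (hg' : JJ g') (h : Td a b g g') (σ : ℝ) :
    Td a b (fun t => P σ (g t)) (fun t => P σ (g' t)) := by
  intro t ht x
  have h1 : ∀ τ ∈ Ioo a b, P σ (g τ) x = P σ (g t) x + JI (fun s => P σ (g' s)) t τ x := by
    intro τ hτ
    have e1 : g τ = fun x => g t x + JI g' t τ x := funext fun x => td_ftc hg' h ht hτ x
    rw [e1, P_add (hg.sp t) ((JI_jj hg' t).sp τ)]
    congr 1
    have e2 : JI g' t τ = fun y => ∫ s in t..τ, g' s y := funext fun y => JI_eq t τ y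
    rw [e2, JI_eq]
    obtain ⟨m, hm⟩ := (isCompact_uIcc (a := t) (b := τ)).exists_bound_of_continuousOn
      (f := fun s : ℝ => s) continuous_id.continuousOn
    obtain ⟨B, -, hB⟩ := hg'.bdd (-m) m
    refine P_int_comm hg'.c (B := B) (fun s hs y => hB s ?_ y) σ x
    have h1 := hm s (uIoc_subset_uIcc hs)
    rw [Real.norm_eq_abs, abs_le] at h1
    exact h1
  have h2 := (JI_td (hg'.PH σ) t t x).const_add (P σ (g t) x)
  refine h2.congr_of_eventuallyEq ?_
  filter_upwards [Ioo_mem_nhds ht.1 ht.2] with τ hτ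
  exact h1 τ hτ

/-- The derivative of the time integral of the heat flow. -/
lemma td_hh (hg : JJ g) (hg' : JJ g') (h : Td a b g g') (H : ℝ) :
    Td a b (fun t => hh 0 H (g t)) (fun t => hh 0 H (g' t)) := by
  intro t ht x
  obtain ⟨a', ha1, ha2⟩ := exists_between ht.1
  obtain ⟨b', hb1, hb2⟩ := exists_between ht.2
  obtain ⟨B, -, hB⟩ := hg'.bdd a' b'
  have hc : ∀ {k : ℝ → V → ℝ}, JJ k → ∀ τ, Continuous fun s => P s (k τ) x := fun {k} hk τ =>
    P_cont_t (hk.sp τ) x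
  refine (intervalIntegral.hasDerivAt_integral_of_dominated_loc_of_deriv_le (μ := volume)
    (F := fun τ s => P s (g τ) x) (F' := fun τ s => P s (g' τ) x) (x₀ := t)
    (bound := fun _ => B) (s := Ioo a' b') (Ioo_mem_nhds ha2 hb1) ?_ ?_ ?_ ?_ ?_ ?_).2
  · exact Eventually.of_forall fun τ => (hc hg τ).aestronglyMeasurable
  · exact (hc hg t).intervalIntegrable _ _
  · exact (hc hg' t).aestronglyMeasurable
  · refine ae_of_all _ fun s _ τ hτ => ?_
    rw [Real.norm_eq_abs]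
    exact P_abs _ _ (hB τ ⟨hτ.1.le, hτ.2.le⟩)
  · exact intervalIntegrable_const
  · refine ae_of_all _ fun s _ τ hτ => ?_
    exact td_P hg hg' h s τ ⟨ha1.trans hτ.1, hτ.2.trans hb2⟩ x

end

end Run7.h219.LS
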