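import Pool.Agent.Run7.h219.SL.Err
import Pool.Agent.Run7.h219.LS.Td

/-!
Consequences of the exponential decay of the heat semigroup.
-/

set_option autoImplicit false

open MeasureTheory Set Filter Topology ProbabilityTheory
open scoped ContDiff NNReal

namespace Run7.h219.LS

open H459R3.NS Run7.h219.SL

/-- Exponential decay on functions of mean zero. -/
def Dob (C κ : ℝ) : Prop := 0 < C ∧ 0 < κ ∧ ∀ (f : V → ℝ) (D : ℝ), SP f → I f = 0 →
  (∀ x, |f x| ≤ D) → ∀ s : ℝ, 0 ≤ s → ∀ x, |P s f x| ≤ C * D * Real.exp (-(κ * s))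

lemma I_pd {f : V → ℝ} (hf : SP f) (j : Fin 3) : I (pd j f) = 0 := by
  have h := ibp (sp_const 1) hf j
  have e : pd j (fun _ : V => (1 : ℝ)) = fun _ => 0 := by
    funext x
    unfold pd
    simp
  rw [e] at h
  simp only [one_mul, zero_mul, integral_zero] at h
  unfold I
  linarith

lemma exp_int {κ a b : ℝ} (hκ : 0 < κ) : ∫ s in a..b, Real.exp (-(κ * (s - a))) ≤ 1 / κ := by
  have h : ∀ s ∈ Set.uIcc a b, HasDerivAt (fun s => -(Real.exp (-(κ * (s - a))) / κ))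
      (Real.exp (-(κ * (s - a)))) s := by
    intro s _
    have h1 : HasDerivAt (fun s => -(κ * (s - a))) (-κ) s := by
      have := (((hasDerivAt_id s).sub_const a).const_mul κ).fun_neg
      simpa using this
    refine (h1.exp.div_const κ).neg.congr_deriv ?_
    field_simp
  rw [intervalIntegral.integral_eq_sub_of_hasDerivAt h (Continuous.intervalIntegrable (by fun_prop) _ _)]
  have h2 := Real.exp_pos (-(κ * (b - a)))
  have h3 : 0 ≤ Real.exp (-(κ * (b - a))) / κ := by positivity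
  simp only [sub_self, mul_zero, neg_zero, Real.exp_zero]
  linarith

section

variable {C κ : ℝ} {f : V → ℝ} {D H : ℝ}

lemma I_P (hf : SP f) (σ : ℝ) : I (P σ f) = I f := P_mass hf σ

/-- Decay after a unit of time. -/
lemma dob1 (h : Dob C κ) (hf : SP f) (h0 : I f = 0) (hD : ∀ x, |P 1 f x| ≤ D) (hH : 1 ≤ H) (x : V) :
    |P H f x| ≤ C * D * Real.exp κ * Real.exp (-(κ * H)) := by
  have h1 := h.2.2 (P 1 f) D (P_sp' hf 1) (by rw [I_P hf, h0]) hD (H - 1) (by linarith) x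
  rw [P_add_time hf (by linarith) zero_le_one, sub_add_cancel] at h1
  refine h1.trans (le_of_eq ?_)
  rw [mul_assoc _ (Real.exp κ), ← Real.exp_add]
  congr 2
  ring

lemma hh_mz (h : Dob C κ) (hf : SP f) (h0 : I f = 0) (hD : ∀ x, |f x| ≤ D) (hH : 0 ≤ H) (x : V) :
    |hh 0 H f x| ≤ C * D / κ := by
  have hD0 : 0 ≤ D := (abs_nonneg _).trans (hD 0)
  have h1 : ‖∫ s in (0 : ℝ)..H, P s f x‖ ≤ ∫ s in (0 : ℝ)..H, C * D * Real.exp (-(κ * (s - 0))) := by
    refine intervalIntegral.norm_integral_le_of_norm_le hH ?_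
      (Continuous.intervalIntegrable (by fun_prop) _ _)
    refine ae_of_all _ fun s hs => ?_
    rw [Real.norm_eq_abs, sub_zero]
    exact h.2.2 f D hf h0 hD s hs.1.le x
  rw [Real.norm_eq_abs, intervalIntegral.integral_const_mul] at h1
  refine h1.trans ?_
  have h2 := exp_int (a := 0) (b := H) h.2.1
  have h3 := h.1
  calc C * D * ∫ s in (0 : ℝ)..H, Real.exp (-(κ * (s - 0))) ≤ C * D * (1 / κ) := by gcongr
    _ = _ := by ring

lemma pd_hh_mz (h : Dob C κ) (hf : SP f) (h0 : I f = 0) (hD : ∀ x, |f x| ≤ D) (hH : 1 ≤ H)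
    (i : Fin 3) (x : V) : |pd i (hh 0 H f) x| ≤ (2 + C / κ) * D := by
  have hD0 : 0 ≤ D := (abs_nonneg _).trans (hD 0)
  have hC := h.1
  have hκ := h.2.1
  rw [pd_hh0 hf]
  have e1 : hh 0 H (pd i f) x = (∫ s in (0 : ℝ)..1, P s (pd i f) x)
      + ∫ s in (1 : ℝ)..H, P s (pd i f) x :=
    (intervalIntegral.integral_add_adjacent_intervals (hh_ii (hf.pd i) x _ _)
      (hh_ii (hf.pd i) x _ _)).symm
  have e2 : ∫ s in (0 : ℝ)..1, P s (pd i f) x = ∫ s in (0 : ℝ)..1, P (1 - s) (pd i f) x := by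
    rw [intervalIntegral.integral_comp_sub_left (fun s => P s (pd i f) x) 1]
    simp
  have b1 : |∫ s in (0 : ℝ)..1, P (1 - s) (pd i f) x| ≤ 2 * D * √(1 - 0) := by
    refine ker_bd zero_le_one fun s hs => ?_
    have hs0 : 0 < 1 - s := by linarith [hs.2]
    have h1 := P_grad hf hs0 hD i x
    have hle : (√(2 * (1 - s)))⁻¹ ≤ (√(1 - s))⁻¹ :=
      inv_anti₀ (Real.sqrt_pos.2 hs0) (Real.sqrt_le_sqrt (by linarith))
    refine h1.trans ?_
    rw [mul_comm]
    exact mul_le_mul_of_nonneg_left hle hD0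
  have b2 : ‖∫ s in (1 : ℝ)..H, P s (pd i f) x‖ ≤ ∫ s in (1 : ℝ)..H, C * D * Real.exp (-(κ * (s - 1))) := by
    refine intervalIntegral.norm_integral_le_of_norm_le hH ?_
      (Continuous.intervalIntegrable (by fun_prop) _ _)
    refine ae_of_all _ fun s hs => ?_
    rw [Real.norm_eq_abs]
    have hs1 : 0 ≤ s - 1 := by linarith [hs.1]
    have e3 : P s (pd i f) x = P 1 (pd i (P (s - 1) f)) x := by
      rw [pd_P hf hs1, P_add_time (hf.pd i) zero_le_one hs1]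
      congr 1
      ring
    rw [e3]
    have h2 := P_grad (P_sp hf hs1) zero_lt_one (fun y => h.2.2 f D hf h0 hD (s - 1) hs1 y) i x
    have h3 : (√(2 * 1))⁻¹ ≤ 1 := by
      apply inv_le_one_of_one_le₀
      rw [Real.one_le_sqrt]
      norm_num
    refine h2.trans ?_
    have h4 := Real.exp_pos (-(κ * (s - 1)))
    calc (√(2 * 1))⁻¹ * (C * D * Real.exp (-(κ * (s - 1)))) ≤ 1 * (C * D * Real.exp (-(κ * (s - 1)))) := by
          gcongr
      _ = _ := one_mul _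
  rw [Real.norm_eq_abs, intervalIntegral.integral_const_mul] at b2
  rw [e1, e2]
  refine (abs_add_le _ _).trans ?_
  have h5 := exp_int (a := 1) (b := H) hκ
  have h6 : C * D * ∫ s in (1 : ℝ)..H, Real.exp (-(κ * (s - 1))) ≤ C * D * (1 / κ) := by gcongr
  rw [sub_zero, Real.sqrt_one, mul_one] at b1
  calc _ ≤ 2 * D + C * D * (1 / κ) := add_le_add b1 (b2.trans h6)
    _ = _ := by ring

end

section

variable {C κ B t₀ H : ℝ} {b : Fin 3 → V → ℝ}

lemma I_d0 (hb : ∀ i, SP (b i)) : I (d0 b) = 0 := by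
  have e : d0 b = fun x => ∑ i, pd i (b i) x := rfl
  rw [e, I_sum fun i _ => (hb i).pd i]
  exact Finset.sum_eq_zero fun i _ => I_pd (hb i) i

lemma I_dd2 {f : Fin 3 → Fin 3 → V → ℝ} (hf : ∀ i j, SP (f i j)) : I (dd2 f) = 0 := by
  have e : dd2 f = fun x => ∑ j, ∑ k, pd j (pd k (f j k)) x := rfl
  rw [e, ← I_sum2 fun j k => ((hf j k).pd k).pd j]
  exact Finset.sum_eq_zero fun i _ => Finset.sum_eq_zero fun j _ => I_pd ((hf i j).pd j) i

/-- The constant. -/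
noncomputable def KD (C κ B t₀ : ℝ) : ℝ := (C * (6 * B) + C * (144 * B ^ 2) * (1 + t₀)) * Real.exp κ

lemma small_d0 (h : Dob C κ) (hb : ∀ i, SP (b i)) (hB : ∀ i x, |b i x| ≤ B) (hH : 1 ≤ H) (x : V) :
    |P H (d0 b) x| ≤ C * (6 * B) * Real.exp κ * Real.exp (-(κ * H)) := by
  have hB0 : 0 ≤ B := (abs_nonneg _).trans (hB 0 0)
  refine dob1 h (d0_sp hb) (I_d0 hb) (fun y => ?_) hH x
  have h1 := d0_P_bd hb hB zero_lt_one y
  have h3 : (√(2 * 1))⁻¹ ≤ 1 := by
    apply inv_le_one_of_one_le₀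
    rw [Real.one_le_sqrt]
    norm_num
  calc |P 1 (d0 b) y| ≤ 3 * ((√(2 * 1))⁻¹ * B) := h1
    _ ≤ 3 * (1 * B) := by gcongr
    _ ≤ _ := by linarith

lemma small_d02 (h : Dob C κ) (hb : ∀ i, SP (b i)) (hB : ∀ i x, |b i x| ≤ B) (hH : 1 ≤ H)
    (a c : Fin 3) (x : V) :
    |pd a (pd c (P H (d0 b))) x| ≤ C * (6 * B) * Real.exp κ * Real.exp (-(κ * H)) := by
  rw [pd_P' (d0_sp hb), pd_P' ((d0_sp hb).pd c)]
  refine dob1 h (((d0_sp hb).pd c).pd a) (I_pd ((d0_sp hb).pd c) a) (fun y => ?_) hH x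
  have h1 := d0_P3_bd hb hB zero_lt_one a c y
  simpa using h1

lemma small_dd (h : Dob C κ) {f : Fin 3 → Fin 3 → V → ℝ} (hf : ∀ i j, SP (f i j)) {M : ℝ}
    (hM : ∀ i j x, |f i j x| ≤ M) (hH : 1 ≤ H) (x : V) :
    |P H (dd2 f) x| ≤ C * (36 * M) * Real.exp κ * Real.exp (-(κ * H)) := by
  have hM0 : 0 ≤ M := (abs_nonneg _).trans (hM 0 0 0)
  refine dob1 h (dd2_sp hf) (I_dd2 hf) (fun y => ?_) hH x
  have h1 := dd2_P_bd hf hM zero_lt_one y
  rw [inv_one, one_mul] at h1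
  linarith

lemma small_dd2 (h : Dob C κ) {f : Fin 3 → Fin 3 → V → ℝ} (hf : ∀ i j, SP (f i j)) {M : ℝ}
    (hM : ∀ i j x, |f i j x| ≤ M) (hH : 1 ≤ H) (a c : Fin 3) (x : V) :
    |P H (pd a (pd c (dd2 f))) x| ≤ C * (36 * M) * Real.exp κ * Real.exp (-(κ * H)) := by
  have hM0 : 0 ≤ M := (abs_nonneg _).trans (hM 0 0 0)
  refine dob1 h (((dd2_sp hf).pd c).pd a) (I_pd ((dd2_sp hf).pd c) a) (fun y => ?_) hH x
  have h1 := dd2_P4_bd hf hM zero_lt_one a c y
  simpa using h1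

lemma small_er (h : Dob C κ) (hb : ∀ i, SP (b i)) (hB : ∀ i x, |b i x| ≤ B) (hH : 1 ≤ H)
    (hs : 640 * B * √t₀ ≤ 1) (n : ℕ) {t : ℝ} (ht : t ∈ Icc 0 t₀) (x : V) :
    |er H b n t x| ≤ C * (144 * B ^ 2) * Real.exp κ * Real.exp (-(κ * H)) * t₀ := by
  have hC := h.1
  have h1 := intervalIntegral.norm_integral_le_of_norm_le_const (a := 0) (b := t)
    (C := C * (36 * (4 * B ^ 2)) * Real.exp κ * Real.exp (-(κ * H)))
    (f := fun s => P (t - s) (P H (dd2 fun i j => FP H b n i j s)) x) fun s hs' => by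
      rw [uIoc_of_le ht.1] at hs'
      rw [Real.norm_eq_abs]
      refine P_abs _ x fun y => small_dd h (fun i j => (FP_jj hb n i j).sp s) (fun i j x => ?_) hH y
      exact FP_bd hb hB (by linarith) hs n s ⟨hs'.1.le, hs'.2.trans ht.2⟩ i j x
  rw [Real.norm_eq_abs, sub_zero, abs_of_nonneg ht.1] at h1
  have h2 : er H b n t x = ∫ s in (0 : ℝ)..t, P (t - s) (P H (dd2 fun i j => FP H b n i j s)) x := rfl
  rw [h2]
  refine h1.trans ?_
  have h3 := ht.2
  have h4 := ht.1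
  have h5 : (36 * (4 * B ^ 2)) = 144 * B ^ 2 := by ring
  rw [h5]
  gcongr

lemma small_er2 (h : Dob C κ) (hb : ∀ i, SP (b i)) (hB : ∀ i x, |b i x| ≤ B) (hH : 1 ≤ H)
    (hs : 640 * B * √t₀ ≤ 1) (n : ℕ) {t : ℝ} (ht : t ∈ Icc 0 t₀) (a c : Fin 3) (x : V) :
    |pd a (pd c (er H b n t)) x| ≤ C * (144 * B ^ 2) * Real.exp κ * Real.exp (-(κ * H)) * t₀ := by
  have hC := h.1
  have hjj := er_jj0 (H := H) hb n
  have e0 : pd a (pd c (er H b n t)) = DD (fun s => pd a (pd c (P H (dd2 fun i j => FP H b n i j s)))) t := by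
    unfold er
    rw [pd_DD hjj, pd_DD (hjj.pd c)]
  have h1 := intervalIntegral.norm_integral_le_of_norm_le_const (a := 0) (b := t)
    (C := C * (36 * (4 * B ^ 2)) * Real.exp κ * Real.exp (-(κ * H)))
    (f := fun s => P (t - s) (pd a (pd c (P H (dd2 fun i j => FP H b n i j s)))) x) fun s hs' => by
      rw [uIoc_of_le ht.1] at hs'
      rw [Real.norm_eq_abs]
      have hsp := dd2_sp fun i j => (FP_jj (H := H) hb n i j).sp s
      rw [pd_P' hsp, pd_P' (hsp.pd c)]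
      refine P_abs _ x fun y => small_dd2 h (fun i j => (FP_jj hb n i j).sp s) (fun i j x => ?_) hH a c y
      exact FP_bd hb hB (by linarith) hs n s ⟨hs'.1.le, hs'.2.trans ht.2⟩ i j x
  rw [Real.norm_eq_abs, sub_zero, abs_of_nonneg ht.1] at h1
  rw [e0]
  refine h1.trans ?_
  have h3 := ht.2
  have h4 := ht.1
  have h5 : (36 * (4 * B ^ 2)) = 144 * B ^ 2 := by ring
  rw [h5]
  gcongr

/-- The error of the divergence is small. -/
lemma small_z (h : Dob C κ) (hb : ∀ i, SP (b i)) (hB : ∀ i x, |b i x| ≤ B) (hH : 1 ≤ H)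
    (hs : 640 * B * √t₀ ≤ 1) (n : ℕ) {t : ℝ} (ht : t ∈ Icc 0 t₀) :
    (∀ x, |P H (d0 b) x - er H b n t x| ≤ KD C κ B t₀ * Real.exp (-(κ * H))) ∧
    (∀ a c x, |pd a (pd c fun y => P H (d0 b) y - er H b n t y) x|
      ≤ KD C κ B t₀ * Real.exp (-(κ * H))) ∧
    ∀ x, |P H (dd2 fun i j => FP H b n i j t) x| ≤ KD C κ B t₀ * Real.exp (-(κ * H)) := by
  have hC := h.1
  have hB0 : 0 ≤ B := (abs_nonneg _).trans (hB 0 0)
  have ht0 : 0 ≤ t₀ := ht.1.trans ht.2
  have he := Real.exp_pos (-(κ * H))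
  have heκ := Real.exp_pos κ
  have k1 : C * (6 * B) * Real.exp κ * Real.exp (-(κ * H))
      + C * (144 * B ^ 2) * Real.exp κ * Real.exp (-(κ * H)) * t₀
      ≤ KD C κ B t₀ * Real.exp (-(κ * H)) := by
    unfold KD
    have : 0 ≤ C * (144 * B ^ 2) * Real.exp κ * Real.exp (-(κ * H)) := by positivity
    nlinarith
  refine ⟨fun x => ?_, fun a c x => ?_, fun x => ?_⟩
  · refine (abs_sub _ _).trans ((add_le_add (small_d0 h hb hB hH x)
      (small_er h hb hB hH hs n ht x)).trans k1)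
  · have e1 : (pd c fun y => P H (d0 b) y - er H b n t y)
        = fun x => pd c (P H (d0 b)) x - pd c (er H b n t) x := by
      funext y
      exact pd_sub (P_sp' (d0_sp hb) H) (er_sp hb n t) c y
    rw [e1, pd_sub ((P_sp' (d0_sp hb) H).pd c) ((er_sp hb n t).pd c)]
    refine (abs_sub _ _).trans ((add_le_add (small_d02 h hb hB hH a c x)
      (small_er2 h hb hB hH hs n ht a c x)).trans k1)
  · refine (small_dd h (fun i j => (FP_jj hb n i j).sp t)
      (FP_bd hb hB (by linarith) hs n t ht) hH x).trans ?_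
    unfold KD
    have h1 : 0 ≤ C * (6 * B) * Real.exp κ * Real.exp (-(κ * H)) := by positivity
    have h2 : 0 ≤ C * (144 * B ^ 2) * Real.exp κ * Real.exp (-(κ * H)) * t₀ := by positivity
    nlinarith

end

end Run7.h219.LS
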