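import Pool.Agent.Run7.h219.SL.Err

/-!
The energy estimate at one time for the difference of an approximate solution with a force in
divergence form and a Picard iterate.
-/

set_option autoImplicit false

open MeasureTheory Set Filter Topology
open scoped ContDiff NNReal

namespace Run7.h219.LS

open H459R3.NS Run7.h219.SL

lemma Iibp {f g : V → ℝ} (hf : SP f) (hg : SP g) (j : Fin 3) :
    I (fun x => f x * pd j g x) = -I (fun x => pd j f x * g x) := by
  have := ibp hf hg j
  unfold I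
  rw [this, neg_neg]

lemma Iibp' {f g : V → ℝ} (hf : SP f) (hg : SP g) (j : Fin 3) :
    I (fun x => pd j f x * g x) = -I (fun x => f x * pd j g x) := by
  rw [Iibp hf hg, neg_neg]

lemma I_congr {f g : V → ℝ} (h : ∀ x, f x = g x) : I f = I g := by
  rw [funext h]

section

variable {a Vf w γ : Fin 3 → V → ℝ} {F Φ : Fin 3 → Fin 3 → V → ℝ} {p q h z r δ : V → ℝ}

lemma Iii (ha : SP p) (hb : SP q) (i j : Fin 3) :
    I (fun x => p x * pd i (pd j q) x) = I (fun x => pd j (pd i p) x * q x) := by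
  rw [Iibp ha (hb.pd j) i, Iibp (ha.pd i) hb j, neg_neg]

/-- The gradient of the potential `h`. -/
lemma grad_h (ha : ∀ i, SP (a i)) (hV : ∀ i, SP (Vf i)) (hh : SP h) (hz : SP z) (hδ : SP δ)
    (hdiv : ∀ x, ∑ i, pd i (a i) x = δ x) (hdV : ∀ x, ∑ i, pd i (Vf i) x = z x - lap h x)
    (hw : ∀ i, w i = fun x => a i x - Vf i x) :
    ∑ i, I (fun x => pd i h x ^ 2) ≤ ∑ i, I (fun x => w i x ^ 2)
      - 2 * I (fun x => h x * (z x - δ x)) := by
  have hws : ∀ i, SP (w i) := fun i => by rw [hw i]; exact sp_sub (ha i) (hV i)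
  have e1 : ∑ i, I (fun x => pd i h x ^ 2) = -I (fun x => h x * lap h x) := by
    have h1 := int_lap_mul hh hh
    have h2 : I (fun x => h x * lap h x) = -∑ j, ∫ x in cube, pd j h x * pd j h x := by
      rw [← h1]
      exact I_congr fun x => mul_comm _ _
    rw [h2, neg_neg]
    refine Finset.sum_congr rfl fun i _ => ?_
    exact I_congr fun x => sq _
  have e2 : ∀ x, lap h x = (z x - δ x) + ∑ i, pd i (w i) x := by
    intro x
    have e5 : ∀ i, pd i (w i) x = pd i (a i) x - pd i (Vf i) x := fun i => by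
      rw [hw i]
      exact pd_sub (ha i) (hV i) i x
    simp_rw [e5]
    rw [Finset.sum_sub_distrib, hdiv, hdV]
    ring
  have e3 : I (fun x => h x * lap h x) = I (fun x => h x * (z x - δ x))
      - ∑ i, I (fun x => pd i h x * w i x) := by
    have e4 : (fun x => h x * lap h x) = fun x => h x * (z x - δ x) + ∑ i, h x * pd i (w i) x := by
      funext x
      rw [e2, mul_add, Finset.mul_sum]
    rw [e4, I_add (hh.mul (sp_sub hz hδ)) (SP.sum fun i _ => hh.mul ((hws i).pd i)),
      I_sum fun i _ => hh.mul ((hws i).pd i), sub_eq_add_neg, ← Finset.sum_neg_distrib]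
    congr 1
    exact Finset.sum_congr rfl fun i _ => Iibp hh (hws i) i
  have e5 : ∑ i, I (fun x => pd i h x * w i x)
      ≤ 1 / 2 * ∑ i, I (fun x => pd i h x ^ 2) + 1 / 2 * ∑ i, I (fun x => w i x ^ 2) := by
    rw [Finset.mul_sum, Finset.mul_sum, ← Finset.sum_add_distrib]
    refine Finset.sum_le_sum fun i _ => ?_
    rw [← I_cmul, ← I_cmul, ← I_add (sp_cmul (sp_sq (hh.pd i)) _) (sp_cmul (sp_sq (hws i)) _)]
    refine I_mono ((hh.pd i).mul (hws i)) ((sp_cmul (sp_sq (hh.pd i)) _).add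
      (sp_cmul (sp_sq (hws i)) _)) fun x => ?_
    have := sq_nonneg (pd i h x - w i x)
    nlinarith
  linarith

/-- The energy estimate at one time. -/
lemma slice5 (ha : ∀ i, SP (a i)) (hV : ∀ i, SP (Vf i)) (hF : ∀ i j, SP (F i j))
    (hΦ : ∀ i j, SP (Φ i j)) (hγ : ∀ i, SP (γ i)) (hp : SP p)
    (hq : SP q) (hh : SP h) (hz : SP z) (hr : SP r) (hδ : SP δ) {ρ : ℝ}
    (hdiv : ∀ x, ∑ i, pd i (a i) x = δ x)
    (hpe : I (fun x => p x * lap h x) + ∑ i, ∑ j, I (fun x => a i x * (a j x * pd i (pd j h) x))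
      - ∑ i, ∑ j, I (fun x => Φ i j x * pd i (pd j h) x) + ∑ i, I (fun x => γ i x * pd i h x) = ρ)
    (hdV : ∀ x, ∑ i, pd i (Vf i) x = z x - lap h x)
    (hlq : ∀ x, lap q x = r x - dd2 F x)
    {Λ M : ℝ} (hΛ : ∀ x, ∑ i, Vf i x ^ 2 ≤ Λ) (hM : ∀ i j x, |pd i (pd j h) x| ≤ M)
    (hw : ∀ i, w i = fun x => a i x - Vf i x) :
    2 * ∑ i, I (fun x => w i x * (lap (a i) x - ∑ j, pd j (fun y => a i y * a j y) x
        + ∑ j, pd j (Φ i j) x + γ i x - pd i p x
        - (lap (Vf i) x - (∑ j, pd j (F i j) x + pd i q x))))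
      + ∑ i, ∑ j, I (fun x => pd j (w i) x ^ 2)
      ≤ 80 * I (fun x => ∑ i, ∑ j, (Vf i x * Vf j x - F i j x) ^ 2)
        + (152 * Λ + 6 * M + 2) * ∑ i, I (fun x => w i x ^ 2)
        + 2 * ∑ i, I (fun x => γ i x ^ 2) + 56 * ∑ i, ∑ j, I (fun x => Φ i j x ^ 2)
        + (1 / 4 * I (fun x => z x ^ 2) + 1 / 4 * I (fun x => δ x ^ 2)
          + 2 * I (fun x => p x * (δ x - z x)) - 2 * I (fun x => q x * (δ x - z x))
          - 2 * I (fun x => h x * r x) - I (fun x => δ x * ∑ i, w i x ^ 2) + 2 * ρ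
          - 2 * I (fun x => h x * (z x - δ x))) := by
  have hws : ∀ i, SP (w i) := fun i => by rw [hw i]; exact sp_sub (ha i) (hV i)
  have hgr := grad_h ha hV hh hz hδ hdiv hdV hw
  have hdw : ∀ x, ∑ i, pd i (w i) x = (δ x - z x) + lap h x := by
    intro x
    have e5 : ∀ i, pd i (w i) x = pd i (a i) x - pd i (Vf i) x := fun i => by
      rw [hw i]
      exact pd_sub (ha i) (hV i) i x
    simp_rw [e5]
    rw [Finset.sum_sub_distrib, hdiv, hdV]
    ring
  -- the identity
  have haa : ∀ i j, SP (fun y => a i y * a j y) := fun i j => (ha i).mul (ha j)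
  have t3 : ∑ i, I (fun x => w i x * (lap (a i) x - ∑ j, pd j (fun y => a i y * a j y) x
        + ∑ j, pd j (Φ i j) x + γ i x - pd i p x
        - (lap (Vf i) x - (∑ j, pd j (F i j) x + pd i q x))))
      = ∑ i, I (fun x => lap (w i) x * w i x)
        - ∑ i, ∑ j, I (fun x => w i x * pd j (fun y => a i y * a j y) x)
        + ∑ i, ∑ j, I (fun x => w i x * pd j (Φ i j) x) + ∑ i, I (fun x => w i x * γ i x)
        - ∑ i, I (fun x => w i x * pd i p x) + ∑ i, I (fun x => w i x * pd i q x)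
        + ∑ i, ∑ j, I (fun x => w i x * pd j (F i j) x) := by
    rw [← Finset.sum_sub_distrib, ← Finset.sum_add_distrib, ← Finset.sum_add_distrib,
      ← Finset.sum_sub_distrib, ← Finset.sum_add_distrib, ← Finset.sum_add_distrib]
    refine Finset.sum_congr rfl fun i _ => ?_
    have s1 := (hws i).lap.mul (hws i)
    have s2 : ∀ j, SP (fun x => w i x * pd j (fun y => a i y * a j y) x) := fun j =>
      (hws i).mul ((haa i j).pd j)
    have s3 : ∀ j, SP (fun x => w i x * pd j (Φ i j) x) := fun j => (hws i).mul ((hΦ i j).pd j)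
    have s4 := (hws i).mul (hγ i)
    have s5 := (hws i).mul (hp.pd i)
    have s6 := (hws i).mul (hq.pd i)
    have s7 : ∀ j, SP (fun x => w i x * pd j (F i j) x) := fun j => (hws i).mul ((hF i j).pd j)
    have c2 := SP.sum (s := Finset.univ) fun j (_ : j ∈ Finset.univ) => s2 j
    have c3 := SP.sum (s := Finset.univ) fun j (_ : j ∈ Finset.univ) => s3 j
    have c7 := SP.sum (s := Finset.univ) fun j (_ : j ∈ Finset.univ) => s7 j
    rw [← I_sum fun j _ => s2 j, ← I_sum fun j _ => s3 j, ← I_sum fun j _ => s7 j,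
      ← I_sub s1 c2, ← I_add (sp_sub s1 c2) c3, ← I_add ((sp_sub s1 c2).add c3) s4,
      ← I_sub (((sp_sub s1 c2).add c3).add s4) s5,
      ← I_add (sp_sub (((sp_sub s1 c2).add c3).add s4) s5) s6,
      ← I_add ((sp_sub (((sp_sub s1 c2).add c3).add s4) s5).add s6) c7]
    refine I_congr fun x => ?_
    have e : lap (w i) x = lap (a i) x - lap (Vf i) x := by
      rw [hw i]
      exact lap_sub (ha i) (hV i) x
    rw [e, ← Finset.mul_sum, ← Finset.mul_sum, ← Finset.mul_sum]
    ring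
  have t4 : ∑ i, I (fun x => lap (w i) x * w i x) = -∑ i, ∑ j, I (fun x => pd j (w i) x ^ 2) := by
    rw [← Finset.sum_neg_distrib]
    refine Finset.sum_congr rfl fun i _ => ?_
    unfold I
    rw [int_lap_mul (hws i) (hws i)]
    congr 1
    refine Finset.sum_congr rfl fun j _ => ?_
    congr 1
    funext x
    ring
  -- integrations by parts
  have tF : ∑ i, ∑ j, I (fun x => w i x * pd j (F i j) x)
      = -∑ i, ∑ j, I (fun x => F i j x * pd j (w i) x) := by
    rw [← Finset.sum_neg_distrib]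
    refine Finset.sum_congr rfl fun i _ => ?_
    rw [← Finset.sum_neg_distrib]
    refine Finset.sum_congr rfl fun j _ => ?_
    rw [Iibp (hws i) (hF i j)]
    congr 1
    exact I_congr fun x => mul_comm _ _
  have tΦ : ∑ i, ∑ j, I (fun x => w i x * pd j (Φ i j) x)
      = -∑ i, ∑ j, I (fun x => Φ i j x * pd j (w i) x) := by
    rw [← Finset.sum_neg_distrib]
    refine Finset.sum_congr rfl fun i _ => ?_
    rw [← Finset.sum_neg_distrib]
    refine Finset.sum_congr rfl fun j _ => ?_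
    rw [Iibp (hws i) (hΦ i j)]
    congr 1
    exact I_congr fun x => mul_comm _ _
  have tpq : ∀ {p : V → ℝ}, SP p → ∑ i, I (fun x => w i x * pd i p x)
      = -(I (fun x => p x * (δ x - z x)) + I (fun x => p x * lap h x)) := by
    intro p hp
    have e1 : ∀ i, I (fun x => w i x * pd i p x) = -I (fun x => p x * pd i (w i) x) := fun i => by
      rw [Iibp (hws i) hp]
      congr 1
      exact I_congr fun x => mul_comm _ _
    simp_rw [e1]
    rw [Finset.sum_neg_distrib, ← I_sum fun i _ => hp.mul ((hws i).pd i),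
      ← I_add (hp.mul (sp_sub hδ hz)) (hp.mul hh.lap)]
    congr 1
    refine I_congr fun x => ?_
    rw [← Finset.mul_sum, hdw]
    ring
  -- the transport term
  have tt : ∑ i, ∑ j, I (fun x => w i x * pd j (fun y => a i y * a j y) x)
      = 1 / 2 * I (fun x => δ x * ∑ i, w i x ^ 2)
        - ∑ i, ∑ j, I (fun x => Vf i x * (a j x * pd j (w i) x)) := by
    have e1 : ∀ i, ∑ j, I (fun x => w i x * pd j (fun y => a i y * a j y) x)
        = -∑ j, I (fun x => Vf i x * (a j x * pd j (w i) x))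
          - ∑ j, I (fun x => w i x * (a j x * pd j (w i) x)) := by
      intro i
      rw [← Finset.sum_neg_distrib, ← Finset.sum_sub_distrib]
      refine Finset.sum_congr rfl fun j _ => ?_
      rw [Iibp (hws i) (haa i j), ← I_neg, ← I_neg,
        ← I_sub (sp_neg ((hV i).mul ((ha j).mul ((hws i).pd j))))
          ((hws i).mul ((ha j).mul ((hws i).pd j)))]
      refine I_congr fun x => ?_
      have e2 : a i x = Vf i x + w i x := by
        rw [hw i]
        ring
      rw [e2]
      ring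
    have e3 : ∀ i, ∑ j, I (fun x => w i x * (a j x * pd j (w i) x))
        = -(1 / 2 * I (fun x => δ x * w i x ^ 2)) := by
      intro i
      have e4 : ∀ j, I (fun x => w i x * (a j x * pd j (w i) x))
          = -(1 / 2 * I (fun x => pd j (a j) x * w i x ^ 2)) := by
        intro j
        have e5 := Iibp (ha j) (sp_sq (hws i)) j
        have e6 : (fun x => a j x * pd j (fun y => w i y ^ 2) x)
            = fun x => 2 * (w i x * (a j x * pd j (w i) x)) := by
          funext x
          have e7 : (fun y => w i y ^ 2) = fun y => w i y * w i y := funext fun y => sq _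
          rw [e7, pd_mul (hws i) (hws i)]
          ring
        rw [e6, I_cmul] at e5
        linarith
      simp_rw [e4]
      rw [Finset.sum_neg_distrib, ← Finset.mul_sum,
        ← I_sum fun j _ => ((ha j).pd j).mul (sp_sq (hws i))]
      congr 2
      refine I_congr fun x => ?_
      rw [← Finset.sum_mul, hdiv]
    simp_rw [e1, e3]
    rw [Finset.sum_sub_distrib, Finset.sum_neg_distrib, Finset.sum_neg_distrib, ← Finset.mul_sum]
    have e8 : I (fun x => δ x * ∑ i, w i x ^ 2) = ∑ i, I (fun x => δ x * w i x ^ 2) := by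
      rw [← I_sum fun i _ => hδ.mul (sp_sq (hws i))]
      refine I_congr fun x => ?_
      rw [Finset.mul_sum]
    rw [e8]
    ring
  -- the pressure of the iterate
  have e3 : I (fun x => q x * lap h x) = I (fun x => h x * r x)
      - ∑ i, ∑ j, I (fun x => F i j x * pd i (pd j h) x) := by
    have e2 : I (fun x => q x * lap h x) = I (fun x => h x * lap q x) := by
      have a1 := int_lap_mul hh hq
      have a2 := int_lap_mul hq hh
      have a3 : I (fun x => q x * lap h x) = ∫ x in cube, lap h x * q x :=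
        I_congr fun x => mul_comm _ _
      have a4 : I (fun x => h x * lap q x) = ∫ x in cube, lap q x * h x :=
        I_congr fun x => mul_comm _ _
      rw [a3, a4, a1, a2]
      congr 1
      refine Finset.sum_congr rfl fun j _ => ?_
      congr 1
      funext x
      ring
    have b1 : (fun x => h x * lap q x) = fun x => h x * r x - h x * dd2 F x := by
      funext x
      rw [hlq]
      ring
    rw [e2, b1, I_sub (hh.mul hr) (hh.mul (dd2_sp hF))]
    congr 1
    have b2 : (fun x => h x * dd2 F x) = fun x => ∑ i, ∑ j, h x * pd i (pd j (F i j)) x := by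
      funext x
      unfold dd2
      rw [Finset.mul_sum]
      exact Finset.sum_congr rfl fun i _ => Finset.mul_sum _ _ _
    rw [b2, ← I_sum2 fun i j => hh.mul (((hF i j).pd j).pd i)]
    refine Finset.sum_congr rfl fun i _ => Finset.sum_congr rfl fun j _ => ?_
    rw [Iii hh (hF i j) i j, pd_comm hh j i]
    exact I_congr fun x => mul_comm _ _
  -- the pointwise bound
  have t6 : (∑ i, ∑ j, I (fun x => Vf i x * (a j x * pd j (w i) x)))
      - (∑ i, ∑ j, I (fun x => F i j x * pd j (w i) x))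
      - (∑ i, ∑ j, I (fun x => a i x * (a j x * pd i (pd j h) x)))
      + (∑ i, ∑ j, I (fun x => F i j x * pd i (pd j h) x))
      ≤ 1 / 8 * (∑ i, ∑ j, I (fun x => pd j (w i) x ^ 2))
        + 1 / 48 * (∑ i, ∑ j, I (fun x => pd i (pd j h) x ^ 2))
        + 40 * I (fun x => ∑ i, ∑ j, (Vf i x * Vf j x - F i j x) ^ 2)
        + (76 * Λ + 3 * M) * ∑ i, I (fun x => w i x ^ 2) := by
    have s1 : ∀ i j, SP (fun x => Vf i x * (a j x * pd j (w i) x)) := fun i j =>
      (hV i).mul ((ha j).mul ((hws i).pd j))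
    have s1a : ∀ i j, SP (fun x => F i j x * pd j (w i) x) := fun i j => (hF i j).mul ((hws i).pd j)
    have s2 : ∀ i j, SP (fun x => a i x * (a j x * pd i (pd j h) x)) := fun i j =>
      (ha i).mul ((ha j).mul ((hh.pd j).pd i))
    have s2a : ∀ i j, SP (fun x => F i j x * pd i (pd j h) x) := fun i j =>
      (hF i j).mul ((hh.pd j).pd i)
    have s3 : ∀ i j, SP (fun x => pd j (w i) x ^ 2) := fun i j => sp_sq ((hws i).pd j)
    have s4 : ∀ i j, SP (fun x => pd i (pd j h) x ^ 2) := fun i j => sp_sq ((hh.pd j).pd i)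
    have s5 : SP (fun x => ∑ i, ∑ j, (Vf i x * Vf j x - F i j x) ^ 2) :=
      SP.sum fun i _ => SP.sum fun j _ => sp_sq (sp_sub ((hV i).mul (hV j)) (hF i j))
    have s6 : ∀ i, SP (fun x => w i x ^ 2) := fun i => sp_sq (hws i)
    have s1' : SP (fun x => ∑ i, ∑ j, Vf i x * (a j x * pd j (w i) x)) :=
      SP.sum fun i _ => SP.sum fun j _ => s1 i j
    have s1a' : SP (fun x => ∑ i, ∑ j, F i j x * pd j (w i) x) :=
      SP.sum fun i _ => SP.sum fun j _ => s1a i j
    have s2' : SP (fun x => ∑ i, ∑ j, a i x * (a j x * pd i (pd j h) x)) :=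
      SP.sum fun i _ => SP.sum fun j _ => s2 i j
    have s2a' : SP (fun x => ∑ i, ∑ j, F i j x * pd i (pd j h) x) :=
      SP.sum fun i _ => SP.sum fun j _ => s2a i j
    have s3' : SP (fun x => ∑ i, ∑ j, pd j (w i) x ^ 2) := SP.sum fun i _ => SP.sum fun j _ => s3 i j
    have s4' : SP (fun x => ∑ i, ∑ j, pd i (pd j h) x ^ 2) :=
      SP.sum fun i _ => SP.sum fun j _ => s4 i j
    have s6' : SP (fun x => ∑ i, w i x ^ 2) := SP.sum fun i _ => s6 i
    rw [I_sum2 s1, I_sum2 s1a, I_sum2 s2, I_sum2 s2a, I_sum2 s3, I_sum2 s4, ← I_sum fun i _ => s6 i,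
      ← I_sub s1' s1a', ← I_sub (sp_sub s1' s1a') s2', ← I_add (sp_sub (sp_sub s1' s1a') s2') s2a',
      ← I_cmul, ← I_cmul, ← I_cmul, ← I_cmul, ← I_add (sp_cmul s3' _) (sp_cmul s4' _),
      ← I_add ((sp_cmul s3' _).add (sp_cmul s4' _)) (sp_cmul s5 _),
      ← I_add (((sp_cmul s3' _).add (sp_cmul s4' _)).add (sp_cmul s5 _)) (sp_cmul s6' _)]
    refine I_mono ((sp_sub (sp_sub s1' s1a') s2').add s2a') ((((sp_cmul s3' _).add
      (sp_cmul s4' _)).add (sp_cmul s5 _)).add (sp_cmul s6' _)) fun x => ?_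
    refine alg4 (fun i => Vf i x) (fun i => w i x) (fun i => a i x) (fun i => ?_)
      (fun i j => pd j (w i) x) (fun i j => pd i (pd j h) x) (fun i j => F i j x) (hΛ x)
      (fun i j => hM i j x)
    rw [hw i]
    ring
  -- the forces
  have tΦ2 : -(∑ i, ∑ j, I (fun x => Φ i j x * pd j (w i) x))
      + ∑ i, ∑ j, I (fun x => Φ i j x * pd i (pd j h) x)
      ≤ 1 / 16 * (∑ i, ∑ j, I (fun x => pd j (w i) x ^ 2))
        + 1 / 96 * (∑ i, ∑ j, I (fun x => pd i (pd j h) x ^ 2))
        + 28 * ∑ i, ∑ j, I (fun x => Φ i j x ^ 2) := by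
    have s1 : ∀ i j, SP (fun x => Φ i j x * pd j (w i) x) := fun i j => (hΦ i j).mul ((hws i).pd j)
    have s2 : ∀ i j, SP (fun x => Φ i j x * pd i (pd j h) x) := fun i j =>
      (hΦ i j).mul ((hh.pd j).pd i)
    have s3 : ∀ i j, SP (fun x => pd j (w i) x ^ 2) := fun i j => sp_sq ((hws i).pd j)
    have s4 : ∀ i j, SP (fun x => pd i (pd j h) x ^ 2) := fun i j => sp_sq ((hh.pd j).pd i)
    have s5 : ∀ i j, SP (fun x => Φ i j x ^ 2) := fun i j => sp_sq (hΦ i j)
    rw [Finset.mul_sum, Finset.mul_sum, Finset.mul_sum, ← Finset.sum_neg_distrib,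
      ← Finset.sum_add_distrib, ← Finset.sum_add_distrib, ← Finset.sum_add_distrib]
    refine Finset.sum_le_sum fun i _ => ?_
    rw [Finset.mul_sum, Finset.mul_sum, Finset.mul_sum, ← Finset.sum_neg_distrib,
      ← Finset.sum_add_distrib, ← Finset.sum_add_distrib, ← Finset.sum_add_distrib]
    refine Finset.sum_le_sum fun j _ => ?_
    rw [← I_neg, ← I_add (sp_neg (s1 i j)) (s2 i j), ← I_cmul, ← I_cmul, ← I_cmul,
      ← I_add (sp_cmul (s3 i j) _) (sp_cmul (s4 i j) _),
      ← I_add ((sp_cmul (s3 i j) _).add (sp_cmul (s4 i j) _)) (sp_cmul (s5 i j) _)]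
    refine I_mono ((sp_neg (s1 i j)).add (s2 i j)) (((sp_cmul (s3 i j) _).add
      (sp_cmul (s4 i j) _)).add (sp_cmul (s5 i j) _)) fun x => ?_
    have b1 := sq_nonneg (pd j (w i) x + 8 * Φ i j x)
    have b2 := sq_nonneg (pd i (pd j h) x - 48 * Φ i j x)
    nlinarith
  have tγ : ∑ i, I (fun x => w i x * γ i x) - ∑ i, I (fun x => γ i x * pd i h x)
      ≤ ∑ i, I (fun x => γ i x ^ 2) + 1 / 2 * ∑ i, I (fun x => w i x ^ 2)
        + 1 / 2 * ∑ i, I (fun x => pd i h x ^ 2) := by
    rw [Finset.mul_sum, Finset.mul_sum, ← Finset.sum_sub_distrib, ← Finset.sum_add_distrib,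
      ← Finset.sum_add_distrib]
    refine Finset.sum_le_sum fun i _ => ?_
    rw [← I_sub ((hws i).mul (hγ i)) ((hγ i).mul (hh.pd i)), ← I_cmul, ← I_cmul,
      ← I_add (sp_sq (hγ i)) (sp_cmul (sp_sq (hws i)) _),
      ← I_add ((sp_sq (hγ i)).add (sp_cmul (sp_sq (hws i)) _)) (sp_cmul (sp_sq (hh.pd i)) _)]
    refine I_mono (sp_sub ((hws i).mul (hγ i)) ((hγ i).mul (hh.pd i)))
      (((sp_sq (hγ i)).add (sp_cmul (sp_sq (hws i)) _)).add (sp_cmul (sp_sq (hh.pd i)) _))
      fun x => ?_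
    have b1 := sq_nonneg (w i x - γ i x)
    have b2 := sq_nonneg (γ i x + pd i h x)
    nlinarith
  -- the second derivatives
  have t7 : ∑ i, ∑ j, I (fun x => pd i (pd j h) x ^ 2)
      ≤ 4 * I (fun x => z x ^ 2) + 4 * I (fun x => δ x ^ 2)
        + 6 * ∑ i, ∑ j, I (fun x => pd j (w i) x ^ 2) := by
    rw [hess hh]
    have s3 : ∀ i j, SP (fun x => pd j (w i) x ^ 2) := fun i j => sp_sq ((hws i).pd j)
    have s3' : SP (fun x => ∑ i, ∑ j, pd j (w i) x ^ 2) := SP.sum fun i _ => SP.sum fun j _ => s3 i j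
    rw [I_sum2 s3, ← I_cmul, ← I_cmul, ← I_cmul, ← I_add (sp_cmul (sp_sq hz) _) (sp_cmul (sp_sq hδ) _),
      ← I_add ((sp_cmul (sp_sq hz) _).add (sp_cmul (sp_sq hδ) _)) (sp_cmul s3' _)]
    refine I_mono (sp_sq hh.lap) (((sp_cmul (sp_sq hz) _).add (sp_cmul (sp_sq hδ) _)).add
      (sp_cmul s3' _)) fun x => ?_
    obtain ⟨y, hy⟩ : ∃ y, y = ∑ i, pd i (w i) x := ⟨_, rfl⟩
    have e2 : lap h x = (z x - δ x) + y := by
      rw [hy, hdw]
      ring
    have e4 : y ^ 2 ≤ 3 * ∑ i, ∑ j, pd j (w i) x ^ 2 := by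
      rw [hy]
      refine (sq3 _).trans ?_
      refine mul_le_mul_of_nonneg_left (Finset.sum_le_sum fun i _ => ?_) (by norm_num)
      exact Finset.single_le_sum (f := fun j => pd j (w i) x ^ 2) (fun j _ => sq_nonneg _)
        (Finset.mem_univ i)
    rw [e2]
    nlinarith [sq_nonneg (z x - δ x - y), sq_nonneg (z x + δ x)]
  have hD0 : 0 ≤ ∑ i, ∑ j, I (fun x => pd j (w i) x ^ 2) :=
    Finset.sum_nonneg fun _ _ => Finset.sum_nonneg fun _ _ => I_nonneg fun _ => sq_nonneg _
  rw [t3, t4, tt, tΦ, tF, tpq hp, tpq hq, e3]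
  linarith

end

end Run7.h219.LS
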