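import Pool.Agent.Run7.h219.SL.Evo3
import Pool.Agent.Run7.h219.LS.Slice5
import Pool.Agent.Run7.h219.LS.Dob2

/-!
The difference of a solution with forces, small divergence, and a Picard iterate: evolution of the
energy.
-/

set_option autoImplicit false
set_option maxHeartbeats 1000000

open MeasureTheory Set Filter Topology
open scoped ContDiff NNReal

namespace Run7.h219.LS

open H459R3.NS Run7.h219.SL

/-- The right-hand side. -/
noncomputable def Rf (a : Fin 3 → ℝ → V → ℝ) (Φ : Fin 3 → Fin 3 → ℝ → V → ℝ)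
    (γ : Fin 3 → ℝ → V → ℝ) (π : ℝ → V → ℝ) (i : Fin 3) (t : ℝ) (x : V) : ℝ :=
  lap (a i t) x - ∑ j, pd j (fun y => a i t y * a j t y) x + ∑ j, pd j (Φ i j t) x + γ i t x
    - pd i (π t) x

/-- A solution with forces in `(0, s)`. -/
structure FSol (s : ℝ) (a : Fin 3 → ℝ → V → ℝ) (Φ : Fin 3 → Fin 3 → ℝ → V → ℝ)
    (γ : Fin 3 → ℝ → V → ℝ) (π δ δ' : ℝ → V → ℝ) : Prop where
  ja : ∀ i, JJ (a i)
  jΦ : ∀ i j, JJ (Φ i j)
  jγ : ∀ i, JJ (γ i)
  jπ : JJ π
  jδ : JJ δ
  jδ' : JJ δ'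
  dv : ∀ t ∈ Icc 0 s, ∀ x, ∑ i, pd i (a i t) x = δ t x
  ev : ∀ i, Td 0 s (a i) (Rf a Φ γ π i)
  dt : Td 0 s δ δ'

section

variable {s : ℝ} {a : Fin 3 → ℝ → V → ℝ} {Φ : Fin 3 → Fin 3 → ℝ → V → ℝ}
  {γ : Fin 3 → ℝ → V → ℝ} {π δ δ' : ℝ → V → ℝ}

lemma Rf_jj (h : FSol s a Φ γ π δ δ') (i : Fin 3) : JJ (Rf a Φ γ π i) := by
  have h1 : JJ (fun t x => ∑ j, pd j (fun y => a i t y * a j t y) x) :=
    JJ.sum fun j _ => ((h.ja i).mul (h.ja j)).pd j
  have h2 : JJ (fun t x => ∑ j, pd j (Φ i j t) x) := JJ.sum fun j _ => (h.jΦ i j).pd j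
  exact ((((h.ja i).lap.sub h1).add h2).add (h.jγ i)).sub (h.jπ.pd i)

/-- The derivative of the divergence. -/
lemma fs_dv (h : FSol s a Φ γ π δ δ') {t : ℝ} (ht : t ∈ Ioo 0 s) (x : V) :
    δ' t x = ∑ i, pd i (Rf a Φ γ π i t) x := by
  have h1 : HasDerivAt (fun τ => ∑ i, pd i (a i τ) x) (∑ i, pd i (Rf a Φ γ π i t) x) t :=
    HasDerivAt.fun_sum fun i _ => td_pd (h.ja i) (Rf_jj h i) (h.ev i) i t ht x
  have h2 : HasDerivAt (fun τ => ∑ i, pd i (a i τ) x) (δ' t x) t := by
    refine (h.dt t ht x).congr_of_eventuallyEq ?_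
    filter_upwards [Ioo_mem_nhds ht.1 ht.2] with τ hτ
    exact h.dv τ ⟨hτ.1.le, hτ.2.le⟩ x
  exact h2.unique h1

/-- The pressure equation. -/
lemma fs_pr (h : FSol s a Φ γ π δ δ') {t : ℝ} (ht : t ∈ Ioo 0 s) {k : V → ℝ} (hk : SP k) :
    I (fun x => π t x * lap k x) + ∑ i, ∑ j, I (fun x => a i t x * (a j t x * pd i (pd j k) x))
      - ∑ i, ∑ j, I (fun x => Φ i j t x * pd i (pd j k) x) + ∑ i, I (fun x => γ i t x * pd i k x)
      = I (fun x => (lap (δ t) x - δ' t x) * k x) := by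
  have sa : ∀ i, SP (a i t) := fun i => (h.ja i).sp t
  have sΦ : ∀ i j, SP (Φ i j t) := fun i j => (h.jΦ i j).sp t
  have sγ : ∀ i, SP (γ i t) := fun i => (h.jγ i).sp t
  have sπ : SP (π t) := h.jπ.sp t
  have saa : ∀ i j, SP (fun y => a i t y * a j t y) := fun i j => (sa i).mul (sa j)
  have hI : t ∈ Icc 0 s := ⟨ht.1.le, ht.2.le⟩
  -- the Laplacian of the divergence
  have hδ : δ t = fun x => ∑ i, pd i (a i t) x := funext fun x => (h.dv t hI x).symm
  have hl : ∀ x, lap (δ t) x = ∑ i, pd i (lap (a i t)) x := by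
    intro x
    rw [hδ]
    unfold lap
    have e1 : ∀ j, pd j (pd j fun x => ∑ i, pd i (a i t) x) x = ∑ i, pd j (pd j (pd i (a i t))) x := by
      intro j
      have e2 : (pd j fun x => ∑ i, pd i (a i t) x) = fun x => ∑ i, pd j (pd i (a i t)) x := by
        funext y
        exact pd_sum (fun i _ => (sa i).pd i) j y
      rw [e2, pd_sum fun i _ => ((sa i).pd i).pd j]
    simp_rw [e1]
    rw [Finset.sum_comm]
    refine Finset.sum_congr rfl fun i _ => ?_
    rw [pd_sum fun j _ => ((sa i).pd j).pd j]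
    refine Finset.sum_congr rfl fun j _ => ?_
    rw [pd_comm (sa i) j i, pd_comm ((sa i).pd j) j i]
  -- the difference
  obtain ⟨g, hg⟩ : ∃ g : Fin 3 → V → ℝ, g = fun i x => ∑ j, pd j (fun y => a i t y * a j t y) x
      - ∑ j, pd j (Φ i j t) x - γ i t x + pd i (π t) x := ⟨_, rfl⟩
  have s1 : ∀ i, SP (fun x => ∑ j, pd j (fun y => a i t y * a j t y) x) := fun i =>
    SP.sum fun j _ => (saa i j).pd j
  have s2 : ∀ i, SP (fun x => ∑ j, pd j (Φ i j t) x) := fun i => SP.sum fun j _ => (sΦ i j).pd j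
  have hgs : ∀ i, SP (g i) := fun i => by
    rw [hg]
    exact (sp_sub (sp_sub (s1 i) (s2 i)) (sγ i)).add (sπ.pd i)
  have hd : ∀ x, lap (δ t) x - δ' t x = ∑ i, pd i (g i) x := by
    intro x
    rw [hl, fs_dv h ht, ← Finset.sum_sub_distrib]
    refine Finset.sum_congr rfl fun i _ => ?_
    rw [← pd_sub ((sa i).lap) ((Rf_jj h i).sp t)]
    congr 1
    rw [hg]
    funext y
    unfold Rf
    ring
  have e1 : I (fun x => (lap (δ t) x - δ' t x) * k x) = -∑ i, I (fun x => g i x * pd i k x) := by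
    rw [← Finset.sum_neg_distrib]
    have e2 : (fun x => (lap (δ t) x - δ' t x) * k x) = fun x => ∑ i, pd i (g i) x * k x := by
      funext x
      rw [hd, Finset.sum_mul]
    rw [e2, I_sum fun i _ => ((hgs i).pd i).mul hk]
    refine Finset.sum_congr rfl fun i _ => ?_
    exact Iibp' (hgs i) hk i
  have e3 : ∀ i, I (fun x => g i x * pd i k x)
      = -∑ j, I (fun x => a i t x * (a j t x * pd i (pd j k) x))
        + ∑ j, I (fun x => Φ i j t x * pd i (pd j k) x) - I (fun x => γ i t x * pd i k x)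
        - I (fun x => π t x * pd i (pd i k) x) := by
    intro i
    have sk := hk.pd i
    have u1 : ∀ j, SP (fun x => pd j (fun y => a i t y * a j t y) x * pd i k x) := fun j =>
      ((saa i j).pd j).mul sk
    have u2 : ∀ j, SP (fun x => pd j (Φ i j t) x * pd i k x) := fun j => ((sΦ i j).pd j).mul sk
    have v1 := SP.sum (s := Finset.univ) fun j (_ : j ∈ Finset.univ) => u1 j
    have v2 := SP.sum (s := Finset.univ) fun j (_ : j ∈ Finset.univ) => u2 j
    have e4 : (fun x => g i x * pd i k x) = fun x =>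
        (∑ j, pd j (fun y => a i t y * a j t y) x * pd i k x)
          - (∑ j, pd j (Φ i j t) x * pd i k x) - γ i t x * pd i k x + pd i (π t) x * pd i k x := by
      funext x
      rw [hg, ← Finset.sum_mul, ← Finset.sum_mul]
      ring
    rw [e4, I_add (sp_sub (sp_sub v1 v2) ((sγ i).mul sk)) ((sπ.pd i).mul sk),
      I_sub (sp_sub v1 v2) ((sγ i).mul sk), I_sub v1 v2, I_sum fun j _ => u1 j,
      I_sum fun j _ => u2 j, Iibp' sπ sk i]
    have c1 : ∑ j, I (fun x => pd j (fun y => a i t y * a j t y) x * pd i k x)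
        = -∑ j, I (fun x => a i t x * (a j t x * pd i (pd j k) x)) := by
      rw [← Finset.sum_neg_distrib]
      refine Finset.sum_congr rfl fun j _ => ?_
      rw [Iibp' (saa i j) sk j, pd_comm hk j i]
      congr 1
      exact I_congr fun x => by ring
    have c2 : ∑ j, I (fun x => pd j (Φ i j t) x * pd i k x)
        = -∑ j, I (fun x => Φ i j t x * pd i (pd j k) x) := by
      rw [← Finset.sum_neg_distrib]
      refine Finset.sum_congr rfl fun j _ => ?_
      rw [Iibp' (sΦ i j) sk j, pd_comm hk j i]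
    rw [c1, c2]
    ring
  have e5 : I (fun x => π t x * lap k x) = ∑ i, I (fun x => π t x * pd i (pd i k) x) := by
    rw [← I_sum fun i _ => sπ.mul ((hk.pd i).pd i)]
    refine I_congr fun x => ?_
    unfold lap
    rw [Finset.mul_sum]
  rw [e1, e5]
  simp_rw [e3]
  rw [Finset.sum_sub_distrib, Finset.sum_sub_distrib, Finset.sum_add_distrib,
    Finset.sum_neg_distrib]
  ring

end

section

variable {s : ℝ} {a : Fin 3 → ℝ → V → ℝ} {Φ : Fin 3 → Fin 3 → ℝ → V → ℝ}
  {γ : Fin 3 → ℝ → V → ℝ} {π δ δ' : ℝ → V → ℝ} {b : Fin 3 → V → ℝ} {H B t₀ : ℝ} {n : ℕ}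

/-- The energy of the difference. -/
noncomputable def en5 (H : ℝ) (a : Fin 3 → ℝ → V → ℝ) (b : Fin 3 → V → ℝ) (n : ℕ) (t : ℝ) : ℝ :=
  ∑ i, I (fun x => (a i t x - VP H b n i t x) ^ 2)

/-- The dissipation of the difference. -/
noncomputable def di5 (H : ℝ) (a : Fin 3 → ℝ → V → ℝ) (b : Fin 3 → V → ℝ) (n : ℕ) (t : ℝ) : ℝ :=
  ∑ i, ∑ j, I (fun x => (pd j (a i t) x - pd j (VP H b n i t) x) ^ 2)

lemma di5_nonneg (t : ℝ) : 0 ≤ di5 H a b n t :=
  Finset.sum_nonneg fun _ _ => Finset.sum_nonneg fun _ _ => I_nonneg fun _ => sq_nonneg _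

lemma en5_nonneg (t : ℝ) : 0 ≤ en5 H a b n t :=
  Finset.sum_nonneg fun _ _ => I_nonneg fun _ => sq_nonneg _

lemma jsq {g : ℝ → V → ℝ} (hg : JJ g) : JJ (fun t x => g t x ^ 2) := by
  have h := hg.mul hg
  have e : (fun t x => g t x ^ 2) = fun t x => g t x * g t x := by
    funext t x
    ring
  rw [e]
  exact h

lemma jcI {g : ℝ → V → ℝ} (hg : JJ g) : Continuous (fun t => I (g t)) := by
  unfold I
  exact continuous_parametric_integral_of_continuous (f := fun t x => g t x) hg.c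
    (s := cube) isCompact_Icc

lemma en5_cont (h : FSol s a Φ γ π δ δ') (hb : ∀ i, SP (b i)) : Continuous (en5 H a b n) := by
  unfold en5
  exact continuous_finsetSum _ fun i _ => jcI (jsq ((h.ja i).sub (VP_jj hb n i)))

lemma di5_cont (h : FSol s a Φ γ π δ δ') (hb : ∀ i, SP (b i)) : Continuous (di5 H a b n) := by
  unfold di5
  exact continuous_finsetSum _ fun i _ => continuous_finsetSum _ fun j _ =>
    jcI (jsq (((h.ja i).pd j).sub ((VP_jj hb n i).pd j)))

lemma en5_deriv (h : FSol s a Φ γ π δ δ') (hb : ∀ i, SP (b i)) {t : ℝ} (ht : t ∈ Ioo 0 s) :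
    HasDerivAt (en5 H a b (n + 1)) (2 * ∑ i, I (fun x => (a i t x - VP H b (n + 1) i t x) *
      (Rf a Φ γ π i t x
        - (lap (VP H b (n + 1) i t) x - gG H (fun i j => FP H b n i j t) i x)))) t := by
  have h1 : ∀ i, HasDerivAt (fun s => I (fun x => (a i s x - VP H b (n + 1) i s x) ^ 2))
      (2 * I (fun x => (a i t x - VP H b (n + 1) i t x) *
      (Rf a Φ γ π i t x
        - (lap (VP H b (n + 1) i t) x - gG H (fun i j => FP H b n i j t) i x)))) t := by
    intro i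
    have hV := VP_jj (H := H) hb (n + 1) i
    have hg := gG_jj (F := FP H b n) (FP_jj hb n) H i
    have hR := Rf_jj h i
    have key := hasDerivAt_I (F := fun s x => (a i s x - VP H b (n + 1) i s x) ^ 2)
      (F' := fun s x => 2 * ((a i s x - VP H b (n + 1) i s x) *
        (Rf a Φ γ π i s x
        - (lap (VP H b (n + 1) i s) x - gG H (fun i j => FP H b n i j s) i x)))) ht
      (((h.ja i).c.sub hV.c).pow 2).continuousOn
      (continuous_const.mul (((h.ja i).c.sub hV.c).mul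
        (hR.c.sub (hV.lap.c.sub hg.c)))).continuousOn
      (fun s hs x => by
        have h2 := h.ev i s hs x
        have h3 := (h2.sub (VP_t (H := H) hb n i hs.1 x)).pow 2
        refine h3.congr_deriv ?_
        push_cast
        simp only [Pi.sub_apply]
        ring)
    refine key.congr_deriv ?_
    exact I_cmul _ _
  have h2 := HasDerivAt.fun_sum fun i (_ : i ∈ (Finset.univ : Finset (Fin 3))) => h1 i
  unfold en5
  refine h2.congr_deriv ?_
  rw [Finset.mul_sum]

end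

end Run7.h219.LS
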