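import Pool.Agent.Run7.h219.SL.Err
import Pool.Agent.Run7.h219.SL.Count4
import Pool.Agent.TH305.DR.Fix2
import Pool.Agent.W349.MF.OMEGA1

/-!
LS (local slice): near every singular point, at every late time, the fast fluid has at least the
energy `c ν² r`. Statements of the pieces.

Notation of the older files: `V = Fin 3 → ℝ` (max norm), `SP f`: smooth `1`-periodic, `P s` heat
semigroup (`∂ₛ P s f = Δ P s f`), `I f = ∫ over the cube`, `JJ g`: family `g : ℝ → V → ℝ` of smooth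
periodic functions with jointly continuous derivatives of all orders in `x`, `hh a b f = ∫ₐᵇ P s f ds`.
-/

set_option autoImplicit false

open MeasureTheory Set Metric Filter Topology
open scoped ContDiff ENNReal

namespace Run7.h219.LS

open H459R3.NS W221.NS Run7.h219.SL
open Pool.Agent.TH305.DR (SV)

/-! ### A: decay of the heat semigroup -/

/-- A. Exponential decay on functions of mean zero (Doeblin: the Gauss kernel is bounded below on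
the cube; `osc (P (1/2) f) ≤ (1 - θ) osc f`). -/
def S_DOB : Prop := ∃ C κ : ℝ, 0 < C ∧ 0 < κ ∧ ∀ (f : V → ℝ) (D : ℝ), SP f → I f = 0 →
  (∀ x, |f x| ≤ D) → ∀ s : ℝ, 0 ≤ s → ∀ x, |P s f x| ≤ C * D * Real.exp (-(κ * s))

/-! ### B, C: the bad points of order two and a good shell -/

/-- The derivatives of order at most two are unbounded near `(T, x)`. -/
def BadD (T : ℝ) (u : ℝ → V → V) (x : V) : Prop := ∀ δ > 0, ∀ B : ℝ, ∃ t ∈ Ioo (T - δ) T,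
  ∃ y ∈ ball x δ, B < SV 0 (u t) y + SV 1 (u t) y + SV 2 (u t) y

/-- B. The number of separated bad points (proof: `SL.t_COUNT4` with `g = gsq (u t)`, and with
`TH305.DR.loc_all` in place of `S_LOCAL` in the last step). -/
def S_BAD : Prop := ∃ C : ℝ, 0 < C ∧ ∀ (T κ E : ℝ) (O : Set V) (u : ℝ → V → V)
  (p : ℝ → V → ℝ), 0 ≤ κ → 0 ≤ E → LSol T κ E O u p → ∀ r : ℝ, 0 < r → 2 * r ^ 2 < T →
    C * κ * √r ≤ 1 → ∀ S : Finset V, (∀ x ∈ S, BadD T u x) →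
    (∀ x ∈ S, ball x (C * (r + E * √r)) ⊆ O) →
    (∀ x ∈ S, ∀ y ∈ S, x ≠ y → r / 4 ≤ ‖x - y‖) →
      ENNReal.ofReal (S.card * r) ≤ ENNReal.ofReal C *
        ∫⁻ τ in Ioo (T - 2 * r ^ 2) T, ∫⁻ y in O, ENNReal.ofReal (gsq (u τ) y)

/-- The centre of the cube. -/
noncomputable def cc : V := fun _ => 1 / 2

/-- A shell with bounds. -/
def Shell (T ρ κ δ M : ℝ) (u : ℝ → V → V) : Prop := 1 / 8 < ρ - κ ∧ ρ + κ < 1 / 4 ∧ 0 < κ ∧ 0 < δ ∧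
  δ < T ∧ ∀ t ∈ Ioo (T - δ) T, ∀ y, |‖y - cc‖ - ρ| ≤ κ →
    SV 0 (u t) y + SV 1 (u t) y + SV 2 (u t) y ≤ M

/-- C. There is a shell `|‖y - cc‖ - ρ| ≤ κ` on which the derivatives of order at most two stay
bounded up to the time `T`. -/
def S_SHELL : Prop := ∀ (T E : ℝ) (Ω : Set V) (u : ℝ → V → V) (p : ℝ → V → ℝ), 0 < T → 0 ≤ E →
  OSol 1 T E Ω u p → closedBall cc (1 / 4) ⊆ Ω →
  ∫⁻ t in Ioo 0 T, ∫⁻ y in Ω, ENNReal.ofReal (gsq (u t) y) ≠ ⊤ →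
    ∃ ρ κ δ M : ℝ, Shell T ρ κ δ M u

/-! ### D: the data on the torus -/

/-- The momentum equation without the time derivative. -/
noncomputable def mom (U : Fin 3 → ℝ → V → ℝ) (q : ℝ → V → ℝ) (i : Fin 3) (t : ℝ) (x : V) : ℝ :=
  lap (U i t) x - ∑ j, U j t x * pd j (U i t) x - pd i (q t) x

/-- The time integral of the pressure. -/
noncomputable def PI (q : ℝ → V → ℝ) (t : ℝ) (x : V) : ℝ := ∫ τ in (0 : ℝ)..t, q τ x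

/-- The points where the cutoff function is not locally equal to `0` or to `1`. -/
def Sh (φ : V → ℝ) : Set V := {x | ¬ (φ =ᶠ[𝓝 x] fun _ => 0) ∧ ¬ (φ =ᶠ[𝓝 x] fun _ => 1)}

/-- Periodic fields which solve the equations on the (periodic) open set `Z`, which contains the
support of the cutoff function `φ`, for the times in `(0, s)`. -/
structure Cdat (s : ℝ) (φ : V → ℝ) (Z : Set V) (U : Fin 3 → ℝ → V → ℝ) (q : ℝ → V → ℝ) : Prop where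
  opn : IsOpen Z
  sp : SP φ
  rng : ∀ x, 0 ≤ φ x ∧ φ x ≤ 1
  off : ∀ x, x ∉ Z → φ =ᶠ[𝓝 x] fun _ => 0
  jU : ∀ i, JJ (U i)
  jq : JJ q
  dvf : ∀ t ∈ Icc 0 s, ∀ x ∈ Z, ∑ i, pd i (U i t) x = 0
  evo : ∀ t ∈ Ioo 0 s, ∀ x ∈ Z, ∀ i, HasDerivAt (fun τ => U i τ x) (mom U q i t x) t
  prs : ∀ t ∈ Ioo 0 s, ∀ x ∈ Z, ∑ i, pd i (mom U q i t) x = 0

/-- The bounds. -/
structure Cbd (s B E M : ℝ) (φ : V → ℝ) (U : Fin 3 → ℝ → V → ℝ) (q : ℝ → V → ℝ) : Prop where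
  dφ : ∀ i x, |pd i φ x| ≤ B
  ddφ : ∀ i j x, |pd i (pd j φ) x| ≤ B
  en : ∀ t ∈ Icc 0 s, ∑ i, I (fun x => (φ x * U i t x) ^ 2) ≤ E ^ 2
  sU : ∀ t ∈ Icc 0 s, ∀ x ∈ Sh φ, ∀ i, |U i t x| ≤ M
  sP : ∀ t ∈ Icc 0 s, ∀ x ∈ Sh φ, |PI q t x| ≤ M
  sdP : ∀ t ∈ Icc 0 s, ∀ x ∈ Sh φ, ∀ i, |pd i (PI q t) x| ≤ M

/-- D1. From a solution with a good shell to data on the torus. (`φ`: cutoff function, `1` near
`closedBall cc (ρ - κ / 2)`, `0` off `ball cc (ρ + κ / 2)`, made periodic; `U i t`: the periodic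
extension of `ζ * u (T - r ^ 2 + clamp t) i`, `clamp t = max 0 (min t s)`; `q t`: that of
`ζ * (p (..) x - p (..) x₀)`, `x₀` in the shell; the bound for `PI q` on the shell: integrate the
equation in time, then integrate `∇ (PI q)` along a polygon in the shell.) -/
def S_DATA : Prop := ∀ (T E : ℝ) (Ω : Set V) (u : ℝ → V → V) (p : ℝ → V → ℝ), 0 < T → 0 ≤ E →
  OSol 1 T E Ω u p → closedBall cc (1 / 4) ⊆ Ω → ∀ ρ κ δ M : ℝ, Shell T ρ κ δ M u →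
    ∃ (φ : V → ℝ) (ρ₀ B M' r₁ : ℝ), 1 / 8 < ρ₀ ∧ ρ₀ < 1 / 4 ∧ 0 ≤ B ∧ 0 ≤ M' ∧ 0 < r₁ ∧
      (∀ x ∈ ball cc ρ₀, φ x = 1) ∧ (∀ x ∈ cube, φ x ≠ 0 → x ∈ ball cc (1 / 4)) ∧
      ∀ r : ℝ, 0 < r → r < r₁ → r ^ 2 < T ∧ ∀ s : ℝ, 0 < s → s < r ^ 2 →
        ∃ (Z : Set V) (U : Fin 3 → ℝ → V → ℝ) (q : ℝ → V → ℝ),
          Cdat s φ Z U q ∧ Cbd s B E M' φ U q ∧
          ∀ t ∈ Icc 0 s, ∀ x ∈ ball cc (1 / 4), φ x ≠ 0 → ∀ i, U i t x = u (T - r ^ 2 + t) x i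

/-- CORE (helper219). The comparison with the Picard flow on the torus. -/
def S_CORE : Prop := ∀ ε : ℝ, 0 < ε → ∃ C c : ℝ, 0 < C ∧ 0 < c ∧ ∀ B E M : ℝ, 0 ≤ B → 0 ≤ E →
  0 ≤ M → ∃ Cu : ℝ, 0 < Cu ∧ ∀ (r s : ℝ) (φ : V → ℝ) (Z : Set V) (U : Fin 3 → ℝ → V → ℝ)
    (q : ℝ → V → ℝ), 0 < r → Cu * r ≤ 1 → 7 * r ^ 2 / 8 < s → s < r ^ 2 → Cdat s φ Z U q →
    Cbd s B E M φ U q → ∀ η : ℝ, 0 < η → ∃ G : ℝ → V → ℝ,
      Continuous (fun z : ℝ × V => G z.1 z.2) ∧ (∀ t, Per (G t)) ∧ (∀ t x, 0 ≤ G t x) ∧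
      (∀ t ∈ Ioo (7 * r ^ 2 / 8) s, ∀ x, (φ =ᶠ[𝓝 x] fun _ => 1) →
        ∑ i, ∑ j, pd j (U i t) x ^ 2 ≤ 2 * G t x + ε / r ^ 4) ∧
      ∫ t in (0 : ℝ)..s, I (G t) ≤ C * (∫ x in cube ∩ {x | c ^ 2 < r ^ 2 * ∑ i, (φ x * U i 0 x) ^ 2},
        ∑ i, (φ x * U i 0 x) ^ 2) + Cu * r ^ 2 + η

/-! ### The theorem for a ball, viscosity one -/

/-- D2. To be derived from `S_COUNT4`, `S_SHELL`, `S_DATA`, `S_CORE` (as in `SL/Main4`; the solution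
on `(0, T) × ℝ³` is `ζ • u`, `W349.MF.cut_sol`, the function is `g t = G (t - (T - r ^ 2))`,
`ρ = r / 4`; the term `Cu * r ^ 2` is absorbed, since one may assume `1 ≤ S.card`). -/
def S_NORM : Prop := ∃ C c : ℝ, 0 < C ∧ 0 < c ∧ ∀ (T E : ℝ) (Ω : Set V) (u : ℝ → V → V)
  (p : ℝ → V → ℝ), 0 < T → 0 ≤ E → OSol 1 T E Ω u p → closedBall cc (1 / 4) ⊆ Ω →
  ∫⁻ t in Ioo 0 T, ∫⁻ y in Ω, ENNReal.ofReal (gsq (u t) y) ≠ ⊤ →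
    ∃ r₀ : ℝ, 0 < r₀ ∧ r₀ ^ 2 ≤ T ∧ ∀ r : ℝ, 0 < r → r < r₀ → ∀ S : Finset V,
      (∀ x ∈ S, x ∈ closedBall cc (1 / 8) ∧ Sing T u x) → (∀ x ∈ S, ∀ y ∈ S, x ≠ y → r ≤ ‖x - y‖) →
        S.card * r ≤ C * ∫ x in {x ∈ ball cc (1 / 4) | c ^ 2 < r ^ 2 * nsq (u (T - r ^ 2)) x},
          nsq (u (T - r ^ 2)) x

/-! ### E: the general theorem -/

/-- E1. From one ball to a compact set `Q` in an open set `W` (scaling and translation; `Q` is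
covered by finitely many balls `closedBall (2 ρ k) ρ`, `k ∈ ℤ³`, whose doubles lie in `W` and
overlap at most 8 times). -/
def S_KW : Prop := ∃ C c : ℝ, 0 < C ∧ 0 < c ∧ ∀ (T E : ℝ) (Ω : Set V) (u : ℝ → V → V)
  (p : ℝ → V → ℝ), 0 < T → 0 ≤ E → OSol 1 T E Ω u p →
  ∫⁻ t in Ioo 0 T, ∫⁻ y in Ω, ENNReal.ofReal (gsq (u t) y) ≠ ⊤ →
  ∀ Q W : Set V, IsCompact Q → IsOpen W → Q ⊆ W → W ⊆ Ω →
    ∃ r₀ : ℝ, 0 < r₀ ∧ r₀ ^ 2 ≤ T ∧ ∀ r : ℝ, 0 < r → r < r₀ → ∀ S : Finset V,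
      (∀ x ∈ S, x ∈ Q ∧ Sing T u x) → (∀ x ∈ S, ∀ y ∈ S, x ≠ y → r ≤ ‖x - y‖) →
        S.card * r ≤ C * ∫ x in {x ∈ W | c ^ 2 < r ^ 2 * nsq (u (T - r ^ 2)) x},
          nsq (u (T - r ^ 2)) x

/-- The fast part of `W`. -/
def fastW (l : ℝ) (W : Set V) (v : V → V) : Set V := {x ∈ W | l < √(nsq v x)}

/-- The weak `L^q` norm of `v` on `W` is at most `M`. -/
def WeakW (q M : ℝ) (W : Set V) (v : V → V) : Prop :=
  ∀ l : ℝ, 0 < l → volume (fastW l W v) ≤ ENNReal.ofReal ((M / l) ^ q)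

/-- E2. All viscosities, and the consequences (from `S_KW`, as in `SL/Final` and `SL/Final2`). -/
def S_FIN : Prop := ∃ (C c : ℝ) (K : ℝ → ℝ), 0 < C ∧ 0 < c ∧ (∀ q : ℝ, 2 < q → 0 < K q) ∧
  ∀ (ν T E : ℝ) (Ω : Set V) (u : ℝ → V → V) (p : ℝ → V → ℝ), 0 < ν → 0 < T →
    OSol ν T E Ω u p → ∫⁻ t in Ioo 0 T, ∫⁻ y in Ω, ENNReal.ofReal (gsq (u t) y) ≠ ⊤ →
    ∀ Q W : Set V, IsCompact Q → IsOpen W → Q ⊆ W → W ⊆ Ω →
      (∃ r₀ : ℝ, 0 < r₀ ∧ r₀ ^ 2 ≤ ν * T ∧ ∀ r : ℝ, 0 < r → r < r₀ →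
        ∀ S : Finset V, (∀ x ∈ S, x ∈ Q ∧ Sing T u x) →
          (∀ x ∈ S, ∀ y ∈ S, x ≠ y → r ≤ ‖x - y‖) →
            S.card * (ν ^ 2 * r) ≤ C * ∫ x in fastW (c * ν / r) W (u (T - r ^ 2 / ν)),
              nsq (u (T - r ^ 2 / ν)) x ∧
            ∀ q M : ℝ, 2 < q → 0 ≤ M → WeakW q M W (u (T - r ^ 2 / ν)) →
              (S.card : ℝ) ≤ K q * (M / ν) ^ q * r ^ (q - 3)) ∧
      (∀ q M : ℝ, 2 < q → q ≤ 3 → 0 ≤ M → (∃ᶠ t in 𝓝[<] T, WeakW q M W (u t)) →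
        Measure.hausdorffMeasure (3 - q) {x ∈ Q | Sing T u x}
          ≤ ENNReal.ofReal (K q * (M / ν) ^ q)) ∧
      ∀ M : ℝ, 0 ≤ M → (∃ᶠ t in 𝓝[<] T, WeakW 3 M W (u t)) →
        {x ∈ Q | Sing T u x}.Finite ∧
          ({x ∈ Q | Sing T u x}.ncard : ℝ) ≤ K 3 * (M / ν) ^ 3

end Run7.h219.LS
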