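import Pool.Agent.Run7.h219.LS.Core
import Pool.Agent.Run7.h219.LS.Pub
import Pool.Agent.Run7.h219.SL.Final2
import Pool.Agent.Run7.h811.LS.Dob
import Pool.Agent.Run7.h811.LS.Norm
import Pool.Agent.Run7.h475.LS.B
import Pool.Agent.Run7.h835.LS.Shell
import Pool.Agent.Run7.h21.LS.E1
import Pool.Agent.Run7.h21.LS.E2
import Pool.Agent.Run7.h956.LS.Data

/-!
The fast fluid near the singular points: conclusion.
-/

set_option autoImplicit false

open MeasureTheory Set Metric Filter Topology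
open scoped ContDiff ENNReal

namespace Run7.h219.LS

open H459R3.NS Run7.h219.SL

theorem t_COUNT : S_COUNT4 :=
  t_COUNT4 W221.NS.B.p_local W221.NS.B.p_moll2 W221.NS.B.p_flowx2 W221.NS.B.p_flowm2
    W221.NS.B.p_frame2

theorem t_all : S_FIN :=
  Run7.h21.LS.t_FIN (Run7.h21.LS.t_KW (Pool.Agent.Run7.h811.LS.t_NORM t_COUNT
    (Run7.h835.LS.t_SHELL Run7.h475.LS.t_BAD) Run7.h956.LS.t_DATA (t_CORE Pool.Agent.Run7.h811.LS.t_DOB)))

open W221.NS in
/-- From the energy class to `OSol`. -/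
lemma esol {ν T : ℝ} {Ω : Set V} {u : ℝ → V → V} {p : ℝ → V → ℝ} (h : LPub.ESol ν T Ω u p) :
    ∃ E : ℝ, OSol ν T E Ω u p := by
  obtain ⟨E, hE⟩ := h.energy
  have hE' : ∀ t ∈ Ioo 0 T, ∫⁻ x in Ω, ENNReal.ofReal (nsq (u t) x) ≤ ENNReal.ofReal E := hE
  have hnn : ∀ v : V → V, ∀ x, 0 ≤ nsq v x := fun v x => Finset.sum_nonneg fun i _ => sq_nonneg _
  have hm : ∀ t ∈ Ioo 0 T, AEStronglyMeasurable (nsq (u t)) (volume.restrict Ω) := by
    intro t ht
    have h1 : ContinuousOn (fun x : V => ((t, x) : ℝ × V)) Ω := by fun_prop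
    have h2 : ContinuousOn (u t) Ω :=
      h.smooth_u.continuousOn.comp h1 fun x hx => ⟨ht, hx⟩
    have h3 : ContinuousOn (nsq (u t)) Ω := by
      unfold nsq
      exact continuousOn_finsetSum _ fun i _ =>
        (((continuous_apply i).comp_continuousOn h2).pow 2)
    exact h3.aestronglyMeasurable h.openO.measurableSet
  have hint : ∀ t ∈ Ioo 0 T, IntegrableOn (nsq (u t)) Ω := by
    intro t ht
    refine ⟨hm t ht, ?_⟩
    rw [hasFiniteIntegral_iff_ofReal (ae_of_all _ (hnn _))]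
    exact (hE' t ht).trans_lt ENNReal.ofReal_lt_top
  refine ⟨√(max E 0), h.openO, h.smooth_u, h.smooth_p, h.divfree, h.momentum, hint, ?_⟩
  intro t ht
  rw [Real.sq_sqrt (le_max_right _ _)]
  have h1 := hE' t ht
  rw [← ofReal_integral_eq_lintegral_ofReal (hint t ht) (ae_of_all _ (hnn _)),
    ENNReal.ofReal_le_ofReal_iff'] at h1
  rcases h1 with h1 | h1
  · exact h1.trans (le_max_left _ _)
  · exact h1.trans (le_max_right _ _)

/-- The fast energy decreases with the threshold. -/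
lemma fast_mono {l l' : ℝ} (hl : l' ≤ l) {W : Set V} {v : V → V}
    (hi : IntegrableOn (LPub.nsq v) W) :
    ∫ x in LPub.fast l W v, LPub.nsq v x ≤ ∫ x in LPub.fast l' W v, LPub.nsq v x := by
  have hs : LPub.fast l W v ⊆ LPub.fast l' W v := fun x hx => ⟨hx.1, hl.trans_lt hx.2⟩
  exact setIntegral_mono_set (hi.mono_set fun x hx => hx.1)
    (ae_of_all _ fun x => Finset.sum_nonneg fun i _ => sq_nonneg _) (ae_of_all _ hs)

lemma fast_nn {l : ℝ} {W : Set V} {v : V → V} : 0 ≤ ∫ x in LPub.fast l W v, LPub.nsq v x :=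
  integral_nonneg fun x => Finset.sum_nonneg fun i _ => sq_nonneg _

theorem final : ∃ (C c : ℝ) (K : ℝ → ℝ), 0 < C ∧ 0 < c ∧ (∀ q : ℝ, 2 < q → 0 < K q) ∧
    (∀ (ν T : ℝ) (Ω : Set V) (u : ℝ → V → V) (p : ℝ → V → ℝ), 0 < ν → 0 < T →
      LPub.ESol ν T Ω u p → ∀ Q : Set V, IsCompact Q → Q ⊆ Ω →
        (∃ r₀ : ℝ, 0 < r₀ ∧ r₀ ^ 2 ≤ ν * T ∧ ∀ r : ℝ, 0 < r → r < r₀ →
          ∀ S : Finset V, (∀ x ∈ S, x ∈ Q ∧ LPub.Sing T u x) →
            (∀ x ∈ S, ∀ y ∈ S, x ≠ y → r ≤ ‖x - y‖) →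
              S.card * (ν ^ 2 * r) ≤ C * ∫ x in LPub.fast (c * ν / r) Ω (u (T - r ^ 2 / ν)),
                LPub.nsq (u (T - r ^ 2 / ν)) x ∧
              ∀ q M : ℝ, 2 < q → 0 ≤ M → LPub.Weak q M Ω (u (T - r ^ 2 / ν)) →
                (S.card : ℝ) ≤ K q * (M / ν) ^ q * r ^ (q - 3)) ∧
        (∀ q M : ℝ, 2 < q → q ≤ 3 → 0 ≤ M → (∃ᶠ t in 𝓝[<] T, LPub.Weak q M Ω (u t)) →
          Measure.hausdorffMeasure (3 - q) {x ∈ Q | LPub.Sing T u x}
            ≤ ENNReal.ofReal (K q * (M / ν) ^ q)) ∧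
        ∀ M : ℝ, 0 ≤ M → (∃ᶠ t in 𝓝[<] T, LPub.Weak 3 M Ω (u t)) →
          {x ∈ Q | LPub.Sing T u x}.Finite ∧
            ({x ∈ Q | LPub.Sing T u x}.ncard : ℝ) ≤ K 3 * (M / ν) ^ 3) ∧
    ∀ (ν T : ℝ) (u : ℝ → V → V) (p : ℝ → V → ℝ), 0 < ν → 0 < T → IsSol ν T u p →
      ∀ r : ℝ, 0 < r → r ^ 2 ≤ ν * T →
        C * (1 + (∫ x in cube, LPub.nsq (u (T - r ^ 2 / ν)) x) / ν ^ 2) * r ≤ 1 →
        ∀ S : Finset V, (∀ x ∈ S, x ∈ cube ∧ LPub.Sing T u x) →
          (∀ x ∈ S, ∀ y ∈ S, x ≠ y → r ≤ ‖x - y‖) →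
            S.card * (ν ^ 2 * r) ≤ C * ∫ x in LPub.fast (c * ν / r) cube (u (T - r ^ 2 / ν)),
              LPub.nsq (u (T - r ^ 2 / ν)) x := by
  obtain ⟨C₁, c₁, K, hC₁, hc₁, hK, H1⟩ := t_all
  obtain ⟨C₂, c₂, hC₂, hc₂, H2⟩ := mainν
  refine ⟨max C₁ C₂, min c₁ c₂, K, lt_max_of_lt_left hC₁, lt_min hc₁ hc₂, hK, ?_, ?_⟩
  · intro ν T Ω u p hν hT hu Q hQ hQΩ
    obtain ⟨E, hE⟩ := esol hu
    obtain ⟨⟨r₀, hr₀, hr₀T, h1⟩, h2, h3⟩ := H1 ν T E Ω u p hν hT hE hu.dissipation Q Ω hQ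
      hu.openO hQΩ subset_rfl
    refine ⟨⟨r₀, hr₀, hr₀T, fun r hr hrr S hS hsep => ?_⟩, h2, h3⟩
    obtain ⟨h4, h5⟩ := h1 r hr hrr S hS hsep
    refine ⟨?_, h5⟩
    have ht : T - r ^ 2 / ν ∈ Ioo 0 T := by
      have h6 : r ^ 2 < r₀ ^ 2 := by gcongr
      have h7 : r ^ 2 / ν < T := by
        rw [div_lt_iff₀ hν]
        linarith
      have h8 : 0 < r ^ 2 / ν := by positivity
      exact ⟨by linarith, by linarith⟩
    refine h4.trans ?_
    have h6 : min c₁ c₂ * ν / r ≤ c₁ * ν / r := by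
      gcongr
      exact min_le_left _ _
    have h7 := fast_mono h6 (hE.en_int _ ht)
    exact mul_le_mul (le_max_left _ _) h7 fast_nn (hC₁.le.trans (le_max_left _ _))
  · intro ν T u p hν hT hu r hr hrT hrC S hS hsep
    have ht : T - r ^ 2 / ν ∈ Ico 0 T := by
      constructor
      · rw [sub_nonneg, div_le_iff₀ hν]
        linarith
      · have : 0 < r ^ 2 / ν := by positivity
        linarith
    obtain ⟨v, hv⟩ : ∃ v, v = u (T - r ^ 2 / ν) := ⟨_, rfl⟩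
    rw [← hv] at hrC ⊢
    have hvs : ∀ i, SP (fun y => v y i) := fun i => by rw [hv]; exact hu.sp ht i
    have he : energy v = ∫ x in cube, LPub.nsq v x := by
      unfold energy LPub.nsq
      rw [integral_finsetSum _ fun i _ => (sp_sq (hvs i)).int]
    have h1 := H2 ν T u p hν hT hu r hr hrT (by
      rw [← hv, he]
      refine le_trans ?_ hrC
      have h2 : 0 ≤ ∫ x in cube, LPub.nsq v x :=
        integral_nonneg fun x => Finset.sum_nonneg fun i _ => sq_nonneg _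
      have h3 : 0 ≤ (1 + (∫ x in cube, LPub.nsq v x) / ν ^ 2) * r := by positivity
      rw [mul_assoc, mul_assoc]
      exact mul_le_mul_of_nonneg_right (le_max_right _ _) h3) S hS hsep
    rw [← hv] at h1
    refine h1.trans ?_
    have h6 : min c₁ c₂ * ν / r ≤ c₂ * ν / r := by
      gcongr
      exact min_le_right _ _
    have hi : IntegrableOn (LPub.nsq v) cube := by
      have h7 : SP (LPub.nsq v) := SP.sum fun i _ => sp_sq (hvs i)
      exact h7.int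
    have h7 := fast_mono h6 hi
    exact mul_le_mul (le_max_right _ _) h7 fast_nn (hC₂.le.trans (le_max_right _ _))

end Run7.h219.LS
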