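import Pool.Agent.Run7.h219.LS.Fin

/-!
The fast fluid near the interior singular points: the local theorem.
-/

set_option autoImplicit false

open MeasureTheory Set Metric Filter Topology
open scoped ContDiff ENNReal

namespace Run7.h219.LS

open H459R3.NS

theorem final_loc : ∃ (C c : ℝ) (K : ℝ → ℝ), 0 < C ∧ 0 < c ∧ (∀ q : ℝ, 2 < q → 0 < K q) ∧
    ∀ (ν T : ℝ) (Ω : Set V) (u : ℝ → V → V) (p : ℝ → V → ℝ), 0 < ν → 0 < T →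
      LPub.ESol ν T Ω u p → ∀ Q : Set V, IsCompact Q → Q ⊆ Ω →
        (∃ r₀ : ℝ, 0 < r₀ ∧ r₀ ^ 2 ≤ ν * T ∧ ∀ r : ℝ, 0 < r → r < r₀ →
          ∀ S : Finset V, (∀ x ∈ S, x ∈ Q ∧ LPub.Sing T u x) →
            (∀ x ∈ S, ∀ y ∈ S, x ≠ y → r ≤ ‖x - y‖) →
              S.card * (ν ^ 2 * r) ≤ C * ∫ x in LPub.fast (c * ν / r) Ω (u (T - r ^ 2 / ν)),
                LPub.nsq (u (T - r ^ 2 / ν)) x ∧
              ∀ q M : ℝ, 2 < q → 0 ≤ M → LPub.Weak q M Ω (u (T - r ^ 2 / ν)) →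
                (S.card : ℝ) ≤ K q * (M / ν) ^ q * r ^ (q - 3)) ∧
        (∀ q M : ℝ, 2 < q → q ≤ 3 → 0 ≤ M → (∃ᶠ t in 𝓝[<] T, LPub.Weak q M Ω (u t)) →
          Measure.hausdorffMeasure (3 - q) {x ∈ Q | LPub.Sing T u x}
            ≤ ENNReal.ofReal (K q * (M / ν) ^ q)) ∧
        ∀ M : ℝ, 0 ≤ M → (∃ᶠ t in 𝓝[<] T, LPub.Weak 3 M Ω (u t)) →
          {x ∈ Q | LPub.Sing T u x}.Finite ∧
            ({x ∈ Q | LPub.Sing T u x}.ncard : ℝ) ≤ K 3 * (M / ν) ^ 3 := by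
  obtain ⟨C, c, K, hC, hc, hK, H, -⟩ := final
  exact ⟨C, c, K, hC, hc, hK, H⟩

end Run7.h219.LS
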